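import Mathlib
import Pool.Agent.R356.Len

/-!
# Numbers represented approximately by integer matrices
-/

set_option autoImplicit false

namespace Pool.Agent.U831.MU

open Finset Polynomial Pool.Agent.R356

variable {ι : Type*} [Fintype ι] [DecidableEq ι]

/-- `c y W` is up to `ε` the image of `W` under an integer matrix; `c` and the entries are bounded
by `K`. -/
def Rep (W : ι → ℝ) (K ε y : ℝ) : Prop :=
  ∃ (c : ℤ) (A : Matrix ι ι ℤ), c ≠ 0 ∧ |(c : ℝ)| ≤ K ∧ (∀ f g, |(A f g : ℝ)| ≤ K) ∧
    ∀ f, |c * y * W f - ∑ g, (A f g : ℝ) * W g| ≤ ε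

omit [DecidableEq ι] in
lemma Rep.mono {W : ι → ℝ} {K K' ε ε' y : ℝ} (h : Rep W K ε y) (hK : K ≤ K') (hε : ε ≤ ε') :
    Rep W K' ε' y := by
  obtain ⟨c, A, hc, hcK, hA, h1⟩ := h
  exact ⟨c, A, hc, hcK.trans hK, fun f g => (hA f g).trans hK, fun f => (h1 f).trans hε⟩

lemma Rep.int (W : ι → ℝ) (z : ℤ) : Rep W (max 1 |(z : ℝ)|) 0 (z : ℝ) := by
  refine ⟨1, fun f g => if f = g then z else 0, one_ne_zero, by simp, fun f g => ?_, fun f => ?_⟩
  · show |((if f = g then z else 0 : ℤ) : ℝ)| ≤ _
    split_ifs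
    · exact le_max_right _ _
    · simp
  · have h1 : ∑ g, (((if f = g then z else 0 : ℤ)) : ℝ) * W g = z * W f := by
      rw [Finset.sum_eq_single f]
      · simp
      · intro g _ hg
        rw [if_neg hg.symm]
        simp
      · intro h
        exact absurd (mem_univ f) h
    rw [h1]
    simp

omit [DecidableEq ι] in
lemma Rep.add {W : ι → ℝ} {K K' ε ε' y z : ℝ} (h : Rep W K ε y) (h' : Rep W K' ε' z) :
    Rep W (2 * K * K') (K' * ε + K * ε') (y + z) := by
  obtain ⟨c, A, hc, hcK, hA, h1⟩ := h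
  obtain ⟨c', A', hc', hcK', hA', h1'⟩ := h'
  have hK : 0 ≤ K := (abs_nonneg _).trans hcK
  have hK' : 0 ≤ K' := (abs_nonneg _).trans hcK'
  refine ⟨c * c', fun f g => c' * A f g + c * A' f g, mul_ne_zero hc hc', ?_, fun f g => ?_,
    fun f => ?_⟩
  · push_cast
    rw [abs_mul]
    have := mul_le_mul hcK hcK' (abs_nonneg _) hK
    nlinarith [mul_nonneg hK hK']
  · push_cast
    refine (abs_add_le _ _).trans ?_
    rw [abs_mul, abs_mul]
    have e1 := mul_le_mul hcK' (hA f g) (abs_nonneg _) hK'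
    have e2 := mul_le_mul hcK (hA' f g) (abs_nonneg _) hK
    linarith
  · have e : ((c * c' : ℤ) : ℝ) * (y + z) * W f -
        ∑ g, ((c' * A f g + c * A' f g : ℤ) : ℝ) * W g =
        c' * (c * y * W f - ∑ g, (A f g : ℝ) * W g) +
        c * (c' * z * W f - ∑ g, (A' f g : ℝ) * W g) := by
      have e3 : ∑ g, ((c' * A f g + c * A' f g : ℤ) : ℝ) * W g =
          c' * ∑ g, (A f g : ℝ) * W g + c * ∑ g, (A' f g : ℝ) * W g := by
        rw [Finset.mul_sum, Finset.mul_sum, ← Finset.sum_add_distrib]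
        refine Finset.sum_congr rfl fun g _ => ?_
        push_cast
        ring
      rw [e3]
      push_cast
      ring
    rw [e]
    refine (abs_add_le _ _).trans ?_
    rw [abs_mul, abs_mul]
    exact add_le_add (mul_le_mul hcK' (h1 f) (abs_nonneg _) hK')
      (mul_le_mul hcK (h1' f) (abs_nonneg _) hK)

omit [DecidableEq ι] in
lemma Rep.mul {W : ι → ℝ} {K K' ε ε' y z : ℝ}
    (h : Rep W K ε y) (h' : Rep W K' ε' z) :
    Rep W ((Fintype.card ι + 1) * K * K') (Fintype.card ι * K' * ε + K * |y| * ε') (y * z) := by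
  obtain ⟨c, A, hc, hcK, hA, h1⟩ := h
  obtain ⟨c', A', hc', hcK', hA', h1'⟩ := h'
  have hK : 0 ≤ K := (abs_nonneg _).trans hcK
  have hK' : 0 ≤ K' := (abs_nonneg _).trans hcK'
  have hn : (0 : ℝ) ≤ Fintype.card ι := by positivity
  refine ⟨c * c', fun f h => ∑ g, A' f g * A g h, mul_ne_zero hc hc', ?_, fun f h => ?_,
    fun f => ?_⟩
  · push_cast
    rw [abs_mul]
    have := mul_le_mul hcK hcK' (abs_nonneg _) hK
    nlinarith [mul_nonneg hn (mul_nonneg hK hK')]
  · push_cast
    refine (Finset.abs_sum_le_sum_abs _ _).trans ?_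
    calc ∑ g, |(A' f g : ℝ) * (A g h : ℝ)| ≤ ∑ _g : ι, K * K' := by
          refine Finset.sum_le_sum fun g _ => ?_
          rw [abs_mul, mul_comm K K']
          exact mul_le_mul (hA' f g) (hA g h) (abs_nonneg _) hK'
      _ = Fintype.card ι * (K * K') := by
          rw [Finset.sum_const, Finset.card_univ, nsmul_eq_mul]
      _ ≤ (Fintype.card ι + 1) * K * K' := by nlinarith [mul_nonneg hK hK']
  · have e : ((c * c' : ℤ) : ℝ) * (y * z) * W f -
        ∑ h, ((∑ g, A' f g * A g h : ℤ) : ℝ) * W h =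
        c * y * (c' * z * W f - ∑ g, (A' f g : ℝ) * W g) +
        ∑ g, (A' f g : ℝ) * (c * y * W g - ∑ h, (A g h : ℝ) * W h) := by
      have e3 : ∑ h, ((∑ g, A' f g * A g h : ℤ) : ℝ) * W h =
          ∑ g, (A' f g : ℝ) * ∑ h, (A g h : ℝ) * W h := by
        push_cast
        simp only [Finset.sum_mul, Finset.mul_sum]
        rw [Finset.sum_comm]
        refine Finset.sum_congr rfl fun g _ => Finset.sum_congr rfl fun h _ => ?_
        ring
      have e4 : ∑ g, (A' f g : ℝ) * (c * y * W g - ∑ h, (A g h : ℝ) * W h) =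
          c * y * ∑ g, (A' f g : ℝ) * W g - ∑ g, (A' f g : ℝ) * ∑ h, (A g h : ℝ) * W h := by
        rw [Finset.mul_sum, ← Finset.sum_sub_distrib]
        refine Finset.sum_congr rfl fun g _ => ?_
        ring
      rw [e3, e4]
      push_cast
      ring
    rw [e]
    refine (abs_add_le _ _).trans ?_
    have e5 : |(c : ℝ) * y * (c' * z * W f - ∑ g, (A' f g : ℝ) * W g)| ≤ K * |y| * ε' := by
      rw [abs_mul, abs_mul]
      exact mul_le_mul (mul_le_mul_of_nonneg_right hcK (abs_nonneg _)) (h1' f) (abs_nonneg _)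
        (by positivity)
    have e6 : |∑ g, (A' f g : ℝ) * (c * y * W g - ∑ h, (A g h : ℝ) * W h)| ≤
        Fintype.card ι * K' * ε := by
      refine (Finset.abs_sum_le_sum_abs _ _).trans ?_
      calc ∑ g, |(A' f g : ℝ) * (c * y * W g - ∑ h, (A g h : ℝ) * W h)| ≤ ∑ _g : ι, K' * ε := by
            refine Finset.sum_le_sum fun g _ => ?_
            rw [abs_mul]
            exact mul_le_mul (hA' f g) (h1 g) (abs_nonneg _) hK'
        _ = Fintype.card ι * K' * ε := by
            rw [Finset.sum_const, Finset.card_univ, nsmul_eq_mul]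
            ring
    linarith

/-- polynomials in represented numbers are represented -/
theorem Rep.poly {σ : Type*} (u : σ → ℝ) (f : MvPolynomial σ ℤ) :
    ∃ (C : ℝ) (k : ℕ), 1 ≤ C ∧ ∀ (W : ι → ℝ) (K ε : ℝ), 1 ≤ K → 0 ≤ ε → (∀ i, Rep W K ε (u i)) →
      Rep W (C * K ^ k) (C * K ^ k * ε) (MvPolynomial.aeval u f) := by
  induction f using MvPolynomial.induction_on with
  | C a =>
    refine ⟨max 1 |(a : ℝ)|, 0, le_max_left _ _, fun W K ε hK hε _ => ?_⟩
    have h := Rep.int W a
    have h1 : (MvPolynomial.aeval u (MvPolynomial.C a : MvPolynomial σ ℤ) : ℝ) = a := by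
      simp
    rw [h1, pow_zero, mul_one]
    exact h.mono le_rfl (by positivity)
  | add p q hp hq =>
    obtain ⟨C₁, k₁, hC₁, h₁⟩ := hp
    obtain ⟨C₂, k₂, hC₂, h₂⟩ := hq
    refine ⟨2 * C₁ * C₂, k₁ + k₂, by nlinarith, fun W K ε hK hε hu => ?_⟩
    have h := (h₁ W K ε hK hε hu).add (h₂ W K ε hK hε hu)
    rw [map_add]
    refine h.mono (le_of_eq (by rw [pow_add]; ring)) (le_of_eq (by rw [pow_add]; ring))
  | mul_X p i hp =>
    obtain ⟨C₁, k₁, hC₁, h₁⟩ := hp
    set n : ℝ := (Fintype.card ι : ℝ) with hn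
    have hn0 : 0 ≤ n := by positivity
    set y : ℝ := MvPolynomial.aeval u p with hy
    have hy0 : 0 ≤ |y| := abs_nonneg y
    refine ⟨(n + 1) * C₁ * (1 + |y|), k₁ + 1, ?_, fun W K ε hK hε hu => ?_⟩
    · have : 1 ≤ (n + 1) * C₁ := by nlinarith
      nlinarith
    · have h0 : 0 ≤ C₁ * K ^ k₁ * ε := by positivity
      have h := (h₁ W K ε hK hε hu).mul (hu i)
      rw [map_mul, MvPolynomial.aeval_X]
      have hP : 0 ≤ C₁ * K ^ k₁ * K := by positivity
      refine h.mono ?_ ?_
      · rw [← hn]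
        have e : (n + 1) * C₁ * (1 + |y|) * K ^ (k₁ + 1) =
            (n + 1) * (C₁ * K ^ k₁) * K + (n + 1) * |y| * (C₁ * K ^ k₁ * K) := by
          rw [pow_succ]; ring
        rw [e]
        have : 0 ≤ (n + 1) * |y| * (C₁ * K ^ k₁ * K) := by positivity
        linarith
      · rw [← hn]
        have e : (n + 1) * C₁ * (1 + |y|) * K ^ (k₁ + 1) * ε =
            n * K * (C₁ * K ^ k₁ * ε) + (C₁ * K ^ k₁ * K * ε) + n * |y| * (C₁ * K ^ k₁ * K * ε) +
              |y| * (C₁ * K ^ k₁ * K * ε) := by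
          rw [pow_succ]; ring
        have e2 : C₁ * K ^ k₁ * |y| * ε ≤ |y| * (C₁ * K ^ k₁ * K * ε) := by
          have h3 : 0 ≤ |y| * (C₁ * K ^ k₁ * ε) := by positivity
          nlinarith
        rw [e]
        have h4 : 0 ≤ C₁ * K ^ k₁ * K * ε := by positivity
        have h5 : 0 ≤ n * |y| * (C₁ * K ^ k₁ * K * ε) := by positivity
        linarith

lemma IsLen.det' {R : Type*} [CommRing R] {f : R → ℝ} (h : IsLen f) (M : Matrix ι ι R) (B : ℝ)
    (hM : ∀ i j, f (M i j) ≤ B) : f M.det ≤ (Fintype.card ι).factorial * B ^ Fintype.card ι := by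
  rw [Matrix.det_apply]
  refine (h.sum _ _).trans ?_
  have h1 : ∀ σ ∈ (univ : Finset (Equiv.Perm ι)),
      f (Equiv.Perm.sign σ • ∏ i, M (σ i) i) ≤ B ^ Fintype.card ι := by
    intro σ _
    have h2 : f (∏ i, M (σ i) i) ≤ B ^ Fintype.card ι := by
      refine (h.prod _ _).trans ?_
      calc ∏ i, f (M (σ i) i) ≤ ∏ _i : ι, B :=
            Finset.prod_le_prod (fun i _ => h.nonneg _) fun i _ => hM _ _
        _ = B ^ Fintype.card ι := by simp
    rcases Int.units_eq_one_or (Equiv.Perm.sign σ) with h3 | h3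
    · rw [h3, one_smul]; exact h2
    · rw [h3, Units.neg_smul, one_smul, h.neg]; exact h2
  refine (Finset.sum_le_sum h1).trans ?_
  rw [Finset.sum_const, Finset.card_univ, Fintype.card_perm, nsmul_eq_mul]

lemma isLen_real : IsLen (fun z : ℝ => |z|) where
  nonneg _ := abs_nonneg _
  zero := by simp
  one := by simp
  neg a := by simp
  add a b := abs_add_le _ _
  mul a b := by rw [abs_mul]

/-- a represented number is nearly algebraic -/
theorem Rep.near {W : ι → ℝ} {K ε y : ℝ} (h : Rep W K ε y) (hK : 1 ≤ K) (f₀ : ι)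
    (hW : W f₀ = 1) : ∃ R : ℤ[X], R ≠ 0 ∧ R.natDegree ≤ Fintype.card ι ∧
      (∀ k, |(R.coeff k : ℝ)| ≤ (Fintype.card ι).factorial * (1 + K) ^ Fintype.card ι *
        K ^ Fintype.card ι) ∧
      |aeval y R| ≤ Fintype.card ι * ((Fintype.card ι).factorial *
        (K * (|y| + 1)) ^ Fintype.card ι) * ε := by
  obtain ⟨c, A, hc, hcK, hA, h1⟩ := h
  have hK0 : 0 < K := by linarith
  set n := Fintype.card ι with hn
  refine ⟨A.charpoly.comp (C c * X), ?_, ?_, ?_, ?_⟩
  · rw [Ne, comp_C_mul_X_eq_zero_iff (mem_nonZeroDivisors_iff_ne_zero.2 hc)]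
    exact (Matrix.charpoly_monic A).ne_zero
  · refine natDegree_comp_le.trans ?_
    rw [Matrix.charpoly_natDegree_eq_dim, natDegree_C_mul_X _ hc, mul_one]
  · intro k
    rw [comp_C_mul_X_coeff]
    by_cases hk : n < k
    · rw [coeff_eq_zero_of_natDegree_lt (by rw [Matrix.charpoly_natDegree_eq_dim]; exact hk)]
      simp only [zero_mul, Int.cast_zero, abs_zero]
      positivity
    · push_cast
      rw [abs_mul, abs_pow]
      refine mul_le_mul ?_ ?_ (by positivity) (by positivity)
      · refine (le_len isLen_int A.charpoly k).trans ?_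
        refine IsLen.det' isLen_int.poly _ _ fun i j => ?_
        rw [Matrix.charmatrix_apply]
        have e1 : len (fun z : ℤ => |(z : ℝ)|) (Matrix.diagonal (fun _ : ι => (X : ℤ[X])) i j) ≤ 1 := by
          rw [Matrix.diagonal_apply]
          split_ifs
          · rw [len_eq isLen_int X 2 (by rw [natDegree_X]; omega)]
            simp [Finset.sum_range_succ, coeff_X]
          · rw [isLen_int.poly.zero]
            norm_num
        have e2 := isLen_int.poly.add (Matrix.diagonal (fun _ : ι => (X : ℤ[X])) i j) (-(C (A i j)))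
        rw [← sub_eq_add_neg, isLen_int.poly.neg, len_C isLen_int] at e2
        have e3 := hA i j
        linarith
      · calc |(c : ℝ)| ^ k ≤ K ^ k := pow_le_pow_left₀ (abs_nonneg _) hcK k
          _ ≤ K ^ n := pow_le_pow_right₀ hK (by omega)
  · -- the value
    set M : Matrix ι ι ℝ := Matrix.scalar ι ((c : ℝ) * y) - (Int.castRingHom ℝ).mapMatrix A with hM
    have hR : aeval y (A.charpoly.comp (C c * X)) = M.det := by
      rw [aeval_def, eval₂_comp]
      have e1 : eval₂ (algebraMap ℤ ℝ) y (C c * X) = c * y := by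
        rw [eval₂_mul, eval₂_C, eval₂_X]
        rfl
      rw [e1, hM, ← Matrix.eval_charpoly, RingHom.mapMatrix_apply, Matrix.charpoly_map, eval_map]
      rfl
    rw [hR]
    have hMf : ∀ f, (M.mulVec W) f = c * y * W f - ∑ g, (A f g : ℝ) * W g := by
      intro f
      rw [hM, Matrix.sub_mulVec, Pi.sub_apply, Matrix.scalar_apply, Matrix.mulVec_diagonal]
      congr 1
    have hadj : M.det = ∑ g, M.adjugate f₀ g * (M.mulVec W) g := by
      have e2 : M.adjugate.mulVec (M.mulVec W) = M.det • W := by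
        rw [Matrix.mulVec_mulVec, Matrix.adjugate_mul, Matrix.smul_mulVec, Matrix.one_mulVec]
      have e3 := congrFun e2 f₀
      rw [Pi.smul_apply, hW, smul_eq_mul, mul_one] at e3
      rw [← e3]
      rfl
    have hMb : ∀ i j, |M i j| ≤ K * (|y| + 1) := by
      intro i j
      have e1 : M i j = (if i = j then (c : ℝ) * y else 0) - (A i j : ℝ) := by
        rw [hM, Matrix.sub_apply, Matrix.scalar_apply, Matrix.diagonal_apply]
        rfl
      rw [e1]
      refine (abs_sub _ _).trans ?_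
      have e4 : |(if i = j then (c : ℝ) * y else 0)| ≤ K * |y| := by
        split_ifs
        · rw [abs_mul]
          exact mul_le_mul_of_nonneg_right hcK (abs_nonneg _)
        · rw [abs_zero]
          positivity
      have := hA i j
      linarith
    have hb : 1 ≤ K * (|y| + 1) := by
      have := abs_nonneg y
      nlinarith
    have hadjb : ∀ g, |M.adjugate f₀ g| ≤ n.factorial * (K * (|y| + 1)) ^ n := by
      intro g
      rw [Matrix.adjugate_apply]
      refine IsLen.det' isLen_real _ _ fun i j => ?_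
      rw [Matrix.updateRow_apply]
      split_ifs
      · rcases eq_or_ne j f₀ with rfl | hne
        · simp only [Pi.single_eq_same, abs_one]
          exact hb
        · rw [Pi.single_eq_of_ne hne, abs_zero]
          linarith
      · exact hMb i j
    rw [hadj]
    refine (Finset.abs_sum_le_sum_abs _ _).trans ?_
    calc ∑ g, |M.adjugate f₀ g * (M.mulVec W) g| ≤
        ∑ _g : ι, (n.factorial * (K * (|y| + 1)) ^ n) * ε := by
          refine Finset.sum_le_sum fun g _ => ?_
          rw [abs_mul, hMf]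
          exact mul_le_mul (hadjb g) (h1 g) (abs_nonneg _) (by positivity)
      _ = n * (n.factorial * (K * (|y| + 1)) ^ n) * ε := by
          rw [Finset.sum_const, Finset.card_univ, nsmul_eq_mul]
          ring

end Pool.Agent.U831.MU
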