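import Mathlib
import Pool.Agent.U831.MU.Rep
import Pool.Agent.TH456.TM.E

/-!
# A joint transcendence measure for several numbers
-/

set_option autoImplicit false

namespace Pool.Agent.U831.MU

open Finset Polynomial Pool.Agent.R356 Pool.Agent.TH456.TM

/-- multiplication by `u` on the powers of `u` -/
lemma single (D : ℕ) (u : ℝ) (P : ℤ[X]) (hP : P.natDegree = D + 1) (K : ℝ)
    (hK : ∀ k, |(P.coeff k : ℝ)| ≤ K) :
    Rep (fun j : Fin (D + 1) => u ^ (j : ℕ)) K |aeval u P| u := by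
  classical
  have hc : P.coeff (D + 1) ≠ 0 := by
    rw [← hP]
    apply leadingCoeff_ne_zero.2
    rintro rfl
    simp at hP
  have hK0 : 0 ≤ K := (abs_nonneg _).trans (hK 0)
  refine ⟨P.coeff (D + 1), fun j l => if (j : ℕ) = D then - P.coeff l else
    if (l : ℕ) = j + 1 then P.coeff (D + 1) else 0, hc, hK _, fun j l => ?_, fun j => ?_⟩
  · show |(((if (j : ℕ) = D then - P.coeff l else
      if (l : ℕ) = j + 1 then P.coeff (D + 1) else 0 : ℤ)) : ℝ)| ≤ K
    split_ifs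
    · push_cast
      rw [abs_neg]
      exact hK _
    · exact hK _
    · simpa using hK0
  · by_cases hj : (j : ℕ) = D
    · have e1 : ∑ l : Fin (D + 1), (((if (j : ℕ) = D then - P.coeff l else
          if (l : ℕ) = j + 1 then P.coeff (D + 1) else 0 : ℤ)) : ℝ) * u ^ (l : ℕ) =
          - ∑ l ∈ range (D + 1), (P.coeff l : ℝ) * u ^ l := by
        rw [← Fin.sum_univ_eq_sum_range (fun l => (P.coeff l : ℝ) * u ^ l) (D + 1),
          ← Finset.sum_neg_distrib]
        refine Finset.sum_congr rfl fun l _ => ?_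
        rw [if_pos hj]
        push_cast
        ring
      have e2 : aeval u P = ∑ l ∈ range (D + 1), (P.coeff l : ℝ) * u ^ l +
          (P.coeff (D + 1) : ℝ) * u ^ (D + 1) := by
        rw [aeval_eq_sum_range, hP, Finset.sum_range_succ]
        simp only [zsmul_eq_mul]
      rw [e1]
      show |(P.coeff (D + 1) : ℝ) * u * u ^ (j : ℕ) - _| ≤ _
      rw [hj, e2]
      apply le_of_eq
      congr 1
      ring
    · have hj2 : (j : ℕ) + 1 < D + 1 := by
        have := j.2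
        omega
      have e1 : ∑ l : Fin (D + 1), (((if (j : ℕ) = D then - P.coeff l else
          if (l : ℕ) = j + 1 then P.coeff (D + 1) else 0 : ℤ)) : ℝ) * u ^ (l : ℕ) =
          (P.coeff (D + 1) : ℝ) * u ^ ((j : ℕ) + 1) := by
        rw [Finset.sum_eq_single (⟨(j : ℕ) + 1, hj2⟩ : Fin (D + 1))]
        · rw [if_neg hj, if_pos rfl]
        · intro l _ hl
          rw [if_neg hj, if_neg (fun h => hl (Fin.ext h))]
          simp
        · intro h
          exact absurd (mem_univ _) h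
      rw [e1]
      show |(P.coeff (D + 1) : ℝ) * u * u ^ (j : ℕ) - _| ≤ _
      have e3 : (P.coeff (D + 1) : ℝ) * u * u ^ (j : ℕ) -
          (P.coeff (D + 1) : ℝ) * u ^ ((j : ℕ) + 1) = 0 := by
        rw [pow_succ]; ring
      rw [e3, abs_zero]
      exact abs_nonneg _

variable {ι κ : Type} [Fintype ι] [DecidableEq ι] [Fintype κ] [DecidableEq κ]

omit [DecidableEq ι] in
lemma Rep.tensor {W : ι → ℝ} {V : κ → ℝ} {K ε y B : ℝ} (h : Rep W K ε y) (hK : 0 ≤ K)
    (hB : ∀ j, |V j| ≤ B) :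
    Rep (fun p : κ × ι => V p.1 * W p.2) K (B * ε) y := by
  obtain ⟨c, A, hc, hcK, hA, h1⟩ := h
  refine ⟨c, fun p q => if p.1 = q.1 then A p.2 q.2 else 0, hc, hcK, fun p q => ?_, fun p => ?_⟩
  · show |((if p.1 = q.1 then A p.2 q.2 else 0 : ℤ) : ℝ)| ≤ K
    split_ifs
    · exact hA _ _
    · simpa using hK
  · have e1 : ∑ q : κ × ι, ((if p.1 = q.1 then A p.2 q.2 else 0 : ℤ) : ℝ) * (V q.1 * W q.2) =
        V p.1 * ∑ g, (A p.2 g : ℝ) * W g := by
      rw [Fintype.sum_prod_type, Finset.sum_eq_single p.1, Finset.mul_sum]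
      · refine Finset.sum_congr rfl fun g _ => ?_
        rw [if_pos rfl]
        ring
      · intro j _ hj
        refine Finset.sum_eq_zero fun g _ => ?_
        rw [if_neg (fun h => hj h.symm)]
        simp
      · intro h
        exact absurd (mem_univ _) h
    rw [e1]
    have e2 : (c : ℝ) * y * (V p.1 * W p.2) - V p.1 * ∑ g, (A p.2 g : ℝ) * W g =
        V p.1 * (c * y * W p.2 - ∑ g, (A p.2 g : ℝ) * W g) := by ring
    rw [e2, abs_mul]
    exact mul_le_mul (hB _) (h1 _) (abs_nonneg _) ((abs_nonneg _).trans (hB p.1))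

omit [DecidableEq ι] in
lemma Rep.tensor' {W : ι → ℝ} {V : κ → ℝ} {K ε y B : ℝ} (h : Rep W K ε y) (hK : 0 ≤ K)
    (hB : ∀ j, |V j| ≤ B) :
    Rep (fun p : ι × κ => W p.1 * V p.2) K (B * ε) y := by
  obtain ⟨c, A, hc, hcK, hA, h1⟩ := h
  refine ⟨c, fun p q => if p.2 = q.2 then A p.1 q.1 else 0, hc, hcK, fun p q => ?_, fun p => ?_⟩
  · show |((if p.2 = q.2 then A p.1 q.1 else 0 : ℤ) : ℝ)| ≤ K
    split_ifs
    · exact hA _ _
    · simpa using hK
  · have e1 : ∑ q : ι × κ, ((if p.2 = q.2 then A p.1 q.1 else 0 : ℤ) : ℝ) * (W q.1 * V q.2) =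
        V p.2 * ∑ g, (A p.1 g : ℝ) * W g := by
      rw [Fintype.sum_prod_type, Finset.mul_sum]
      refine Finset.sum_congr rfl fun g _ => ?_
      rw [Finset.sum_eq_single p.2]
      · rw [if_pos rfl]
        ring
      · intro j _ hj
        rw [if_neg (fun h => hj h.symm)]
        simp
      · intro h
        exact absurd (mem_univ _) h
    rw [e1]
    have e2 : (c : ℝ) * y * (W p.1 * V p.2) - V p.2 * ∑ g, (A p.1 g : ℝ) * W g =
        V p.2 * (c * y * W p.1 - ∑ g, (A p.1 g : ℝ) * W g) := by ring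
    rw [e2, abs_mul]
    exact mul_le_mul (hB _) (h1 _) (abs_nonneg _) ((abs_nonneg _).trans (hB p.2))

/-- a common vector for several numbers -/
theorem base (D : ℕ) (r : ℕ) : ∀ u : Fin r → ℝ, ∃ (ι : Type) (_ : Fintype ι) (_ : DecidableEq ι)
    (W : ι → ℝ) (f₀ : ι) (B : ℝ), W f₀ = 1 ∧ 1 ≤ B ∧ (∀ f, |W f| ≤ B) ∧
    ∀ (P : Fin r → ℤ[X]) (K ε : ℝ), (∀ i, (P i).natDegree = D + 1) → 1 ≤ K →
      (∀ i k, |((P i).coeff k : ℝ)| ≤ K) → 0 ≤ ε → (∀ i, |aeval (u i) (P i)| ≤ ε) →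
      ∀ i, Rep W K (B * ε) (u i) := by
  induction r with
  | zero =>
    intro u
    exact ⟨Unit, inferInstance, inferInstance, fun _ => 1, (), 1, rfl, le_rfl, by simp,
      fun P K ε _ _ _ _ _ i => i.elim0⟩
  | succ r ih =>
    intro u
    obtain ⟨ι, hF, hDec, W, f₀, B, hW, hB, hWB, h⟩ := ih (fun i => u i.succ)
    set T : ℝ := (1 + |u 0|) ^ D with hT
    have hT1 : 1 ≤ T := one_le_pow₀ (by linarith [abs_nonneg (u 0)])
    have hV : ∀ j : Fin (D + 1), |u 0 ^ (j : ℕ)| ≤ T := by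
      intro j
      rw [abs_pow]
      calc |u 0| ^ (j : ℕ) ≤ (1 + |u 0|) ^ (j : ℕ) :=
            pow_le_pow_left₀ (abs_nonneg _) (by linarith) _
        _ ≤ T := pow_le_pow_right₀ (by linarith [abs_nonneg (u 0)]) (by have := j.2; omega)
    refine ⟨Fin (D + 1) × ι, inferInstance, inferInstance,
      fun p => u 0 ^ (p.1 : ℕ) * W p.2, (0, f₀), T * B, by simp [hW], by nlinarith, fun p => ?_,
      fun P K ε hP hK hPK hε hPε i => ?_⟩
    · rw [abs_mul]
      exact mul_le_mul (hV p.1) (hWB p.2) (abs_nonneg _) (by linarith)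
    · refine Fin.cases ?_ (fun i => ?_) i
      · have h1 := (single D (u 0) (P 0) (hP 0) K (hPK 0)).mono le_rfl (hPε 0)
        have h2 := h1.tensor' (V := W) (by linarith) hWB
        refine h2.mono le_rfl ?_
        have : 0 ≤ B * ε := by positivity
        nlinarith
      · have h1 := h (fun i => P i.succ) K ε (fun i => hP i.succ) hK (fun i => hPK i.succ) hε
          (fun i => hPε i.succ) i
        have h2 := h1.tensor (V := fun j : Fin (D + 1) => u 0 ^ (j : ℕ)) (by linarith) hV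
        refine h2.mono le_rfl (le_of_eq (by ring))

/-- **The joint transcendence measure of several numbers.** If an integer polynomial in the real
numbers `u_1, …, u_r` has a transcendence measure, then they are not simultaneously close to
algebraic numbers. -/
theorem multi (r : ℕ) (u : Fin r → ℝ) (f : MvPolynomial (Fin r) ℤ)
    (hy : MeasT ((MvPolynomial.aeval u f : ℝ) : ℂ)) (D : ℕ) :
    ∃ κ C : ℝ, 0 < κ ∧ 0 < C ∧ ∀ P : Fin r → ℤ[X], (∀ i, P i ≠ 0) →
      (∀ i, (P i).natDegree ≤ D) → ∀ H : ℝ, 1 ≤ H → (∀ i k, |((P i).coeff k : ℝ)| ≤ H) →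
      ∃ i, C * H ^ (-κ) ≤ |aeval (u i) (P i)| := by
  obtain ⟨ι, hF, hDec, W, f₀, B, hW, hB, hWB, hbase⟩ := base D r u
  obtain ⟨C₁, k, hC₁, hpoly⟩ := Rep.poly (ι := ι) u f
  set n : ℕ := Fintype.card ι with hn
  obtain ⟨κ₀, c₀, hκ₀, hc₀, hm⟩ := hy n
  set y : ℝ := MvPolynomial.aeval u f with hydef
  -- bound for the numbers
  obtain ⟨U, hU1, hU⟩ : ∃ U : ℝ, 1 ≤ U ∧ ∀ i, |u i| ≤ U := by
    refine ⟨1 + ∑ i, |u i|, ?_, fun i => ?_⟩
    · have : 0 ≤ ∑ i, |u i| := Finset.sum_nonneg fun i _ => abs_nonneg _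
      linarith
    · have := Finset.single_le_sum (f := fun i => |u i|) (fun i _ => abs_nonneg _) (mem_univ i)
      linarith
  set E₁ : ℝ := (n.factorial * (2 * C₁) ^ (2 * n)) ^ κ₀ with hE₁
  set E₂ : ℝ := (n + 1) * (n.factorial * (C₁ * (|y| + 1)) ^ n) * (C₁ * (B * U ^ (D + 1))) with hE₂
  have hE₁0 : 0 < E₁ := by positivity
  have hE₂0 : 0 < E₂ := by positivity
  set κ : ℝ := (2 * n * k : ℕ) * κ₀ + (n * k + k : ℕ) + 1 with hκ
  have hκ0 : 0 < κ := by positivity
  refine ⟨κ, c₀ / (2 * (E₁ * E₂)), hκ0, by positivity, fun P hP0 hPD H hH hPH => ?_⟩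
  by_contra hcon
  push Not at hcon
  set ε : ℝ := c₀ / (2 * (E₁ * E₂)) * H ^ (-κ) with hε
  have hH0 : 0 < H := by linarith
  have hε0 : 0 < ε := by positivity
  -- polynomials of exact degree
  have hrep := hbase (fun i => X ^ (D + 1 - (P i).natDegree) * P i) H (U ^ (D + 1) * ε)
    (fun i => by
      rw [natDegree_mul (pow_ne_zero _ X_ne_zero) (hP0 i), natDegree_X_pow]
      have := hPD i
      omega) hH (fun i j => by
      rw [mul_comm, coeff_mul_X_pow']
      split_ifs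
      · exact hPH i _
      · simpa using hH0.le) (by positivity) (fun i => by
      rw [map_mul, map_pow, aeval_X, abs_mul, abs_pow]
      refine mul_le_mul ?_ (hcon i).le (abs_nonneg _) (by positivity)
      calc |u i| ^ (D + 1 - (P i).natDegree) ≤ U ^ (D + 1 - (P i).natDegree) :=
            pow_le_pow_left₀ (abs_nonneg _) (hU i) _
        _ ≤ U ^ (D + 1) := pow_le_pow_right₀ hU1 (by omega))
  have hy1 := hpoly W H (B * (U ^ (D + 1) * ε)) hH (by positivity) hrep
  set K : ℝ := C₁ * H ^ k with hK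
  have hK1 : 1 ≤ K := by
    have : (1 : ℝ) ≤ H ^ k := one_le_pow₀ hH
    rw [hK]
    nlinarith
  obtain ⟨R, hR0, hRn, hRc, hRy⟩ := hy1.near hK1 f₀ hW
  rw [← hn] at hRn hRc hRy
  have hRc' : ∀ j, |(R.coeff j : ℝ)| ≤ n.factorial * (2 * K) ^ (2 * n) := by
    intro j
    refine (hRc j).trans ?_
    have h1 : (1 + K) ^ n * K ^ n ≤ (2 * K) ^ (2 * n) := by
      rw [two_mul n, pow_add]
      apply mul_le_mul
      · exact pow_le_pow_left₀ (by linarith) (by linarith) _
      · exact pow_le_pow_left₀ (by linarith) (by linarith) _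
      · positivity
      · positivity
    calc (n.factorial : ℝ) * (1 + K) ^ n * K ^ n = n.factorial * ((1 + K) ^ n * K ^ n) := by ring
      _ ≤ _ := mul_le_mul_of_nonneg_left h1 (by positivity)
  have hH' : 1 ≤ (n.factorial : ℝ) * (2 * K) ^ (2 * n) := by
    have h1 : (1 : ℝ) ≤ n.factorial := by exact_mod_cast n.factorial_pos
    have h2 : (1 : ℝ) ≤ (2 * K) ^ (2 * n) := one_le_pow₀ (by linarith)
    nlinarith
  have hfin := hm R hR0 hRn _ hH' hRc'
  have hnorm : ‖aeval ((y : ℝ) : ℂ) R‖ = |aeval y R| := by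
    have h1 : aeval ((y : ℝ) : ℂ) R = ((aeval y R : ℝ) : ℂ) := by
      have := Polynomial.aeval_algebraMap_apply ℂ y R
      simpa using this
    rw [h1, Complex.norm_real, Real.norm_eq_abs]
  rw [hnorm] at hfin
  -- collect the powers of `H`
  have e1 : ((n.factorial : ℝ) * (2 * K) ^ (2 * n)) ^ κ₀ = E₁ * H ^ (((2 * n * k : ℕ) : ℝ) * κ₀) := by
    have h1 : (n.factorial : ℝ) * (2 * K) ^ (2 * n) =
        (n.factorial * (2 * C₁) ^ (2 * n)) * H ^ (2 * n * k) := by
      rw [hK, show 2 * (C₁ * H ^ k) = (2 * C₁) * H ^ k by ring, mul_pow (2 * C₁), ← pow_mul,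
        mul_comm k (2 * n)]
      ring
    rw [h1, Real.mul_rpow (by positivity) (by positivity), hE₁, Real.rpow_mul hH0.le,
      Real.rpow_natCast]
  have e2 : |aeval y R| ≤ E₂ * H ^ ((n * k + k : ℕ) : ℝ) * ε := by
    refine hRy.trans ?_
    have h1 : (n : ℝ) * (n.factorial * (K * (|y| + 1)) ^ n) * (K * (B * (U ^ (D + 1) * ε))) =
        (n * (n.factorial * (C₁ * (|y| + 1)) ^ n) * (C₁ * (B * U ^ (D + 1)))) *
          H ^ (n * k + k) * ε := by
      rw [hK, show C₁ * H ^ k * (|y| + 1) = (C₁ * (|y| + 1)) * H ^ k by ring, mul_pow _ (H ^ k),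
        ← pow_mul, mul_comm k n, pow_add]
      ring
    rw [h1, Real.rpow_natCast]
    have h2 : (n : ℝ) * (n.factorial * (C₁ * (|y| + 1)) ^ n) * (C₁ * (B * U ^ (D + 1))) ≤ E₂ := by
      rw [hE₂]
      have h3 : 0 ≤ (n.factorial * (C₁ * (|y| + 1)) ^ n) * (C₁ * (B * U ^ (D + 1))) := by positivity
      nlinarith
    exact mul_le_mul_of_nonneg_right (mul_le_mul_of_nonneg_right h2 (by positivity)) hε0.le
  have e3 : c₀ ≤ E₁ * H ^ (((2 * n * k : ℕ) : ℝ) * κ₀) * (E₂ * H ^ ((n * k + k : ℕ) : ℝ) * ε) := by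
    rw [e1] at hfin
    exact hfin.trans (mul_le_mul_of_nonneg_left e2 (by positivity))
  have e4 : E₁ * H ^ (((2 * n * k : ℕ) : ℝ) * κ₀) * (E₂ * H ^ ((n * k + k : ℕ) : ℝ) * ε) =
      c₀ / 2 * H ^ (-1 : ℝ) := by
    rw [hε]
    have h1 : H ^ (-κ) = (H ^ (((2 * n * k : ℕ) : ℝ) * κ₀) * H ^ ((n * k + k : ℕ) : ℝ))⁻¹ *
        H ^ (-1 : ℝ) := by
      rw [← Real.rpow_add hH0, ← Real.rpow_neg hH0.le, ← Real.rpow_add hH0]
      congr 1
      rw [hκ]
      ring
    rw [h1]
    have h2 : 0 < H ^ (((2 * n * k : ℕ) : ℝ) * κ₀) := Real.rpow_pos_of_pos hH0 _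
    have h3 : 0 < H ^ ((n * k + k : ℕ) : ℝ) := Real.rpow_pos_of_pos hH0 _
    field_simp
  have e5 : H ^ (-1 : ℝ) ≤ 1 := Real.rpow_le_one_of_one_le_of_nonpos hH (by norm_num)
  rw [e4] at e3
  nlinarith

end Pool.Agent.U831.MU
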