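import Mathlib
import Pool.Agent.U831.MU.Joint
import Pool.Agent.U831.JE.Joint

/-!
# The hyperplane of the exceptional forms or monomials at a scale
-/

set_option autoImplicit false

namespace Pool.Agent.U831.MU

open Finset Polynomial Filter Pool.Agent.TH456.TM Pool.Agent.U831.JE

/-- the numbers `v_i`, `i` in `T`, are not simultaneously close to algebraic numbers -/
def MJ {ι : Type*} (T : Finset ι) (v : ι → ℝ) : Prop :=
  ∀ D : ℕ, ∃ κ C : ℝ, 0 < κ ∧ 0 < C ∧ ∀ P : ι → ℤ[X], (∀ i ∈ T, P i ≠ 0) →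
    (∀ i ∈ T, (P i).natDegree ≤ D) → ∀ H : ℝ, 1 ≤ H → (∀ i ∈ T, ∀ k, |((P i).coeff k : ℝ)| ≤ H) →
    ∃ i ∈ T, C * H ^ (-κ) ≤ |aeval (v i) (P i)|

lemma MJ_of_poly {ι : Type*} [DecidableEq ι] (T : Finset ι) (v : ι → ℝ) (f : MvPolynomial T ℤ)
    (hy : MeasT ((MvPolynomial.aeval (fun i : T => v i) f : ℝ) : ℂ)) : MJ T v := by
  intro D
  set e : T ≃ Fin T.card := T.equivFin with he
  have h1 : MvPolynomial.aeval (fun j : Fin T.card => v (e.symm j)) (MvPolynomial.rename e f) =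
      MvPolynomial.aeval (fun i : T => v i) f := by
    rw [MvPolynomial.aeval_rename]
    congr 2
    funext i
    simp
  obtain ⟨κ, C, hκ, hC, h⟩ := multi T.card (fun j => v (e.symm j)) (MvPolynomial.rename e f)
    (by rw [h1]; exact hy) D
  refine ⟨κ, C, hκ, hC, fun P hP0 hPD H hH hPH => ?_⟩
  obtain ⟨j, hj⟩ := h (fun j => P (e.symm j)) (fun j => hP0 _ (e.symm j).2)
    (fun j => hPD _ (e.symm j).2) H hH (fun j => hPH _ (e.symm j).2)
  exact ⟨e.symm j, (e.symm j).2, hj⟩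

/-- a polynomial relation for `x` gives one for `1 / x` -/
lemma rev_bound (x : ℝ) (hx : x ≠ 0) (D : ℕ) : ∃ C : ℝ, 0 < C ∧ ∀ P : ℤ[X], P ≠ 0 →
    P.natDegree ≤ D → |aeval x⁻¹ P.reverse| ≤ C * |aeval x P| := by
  refine ⟨(1 + |x|⁻¹) ^ D, by positivity, fun P hP hD => ?_⟩
  have h1 : aeval x P = aeval x⁻¹ P.reverse * x ^ P.natDegree := by
    let _ : Invertible x := invertibleOfNonzero hx
    have h2 := eval₂_reverse_mul_pow (algebraMap ℤ ℝ) x P
    rw [invOf_eq_inv] at h2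
    rw [aeval_def, aeval_def, h2]
  rw [h1, abs_mul, abs_pow]
  have hx0 : 0 < |x| := abs_pos.2 hx
  have h3 : 1 ≤ (1 + |x|⁻¹) ^ D * |x| ^ P.natDegree := by
    have h4 : (1 + |x|⁻¹) ^ P.natDegree ≤ (1 + |x|⁻¹) ^ D :=
      pow_le_pow_right₀ (by linarith [inv_pos.2 hx0]) hD
    have h5 : 1 ≤ (1 + |x|⁻¹) ^ P.natDegree * |x| ^ P.natDegree := by
      rw [← mul_pow]
      apply one_le_pow₀
      rw [add_mul, inv_mul_cancel₀ hx0.ne']
      linarith
    exact h5.trans (mul_le_mul_of_nonneg_right h4 (by positivity))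
  nlinarith [abs_nonneg (aeval x⁻¹ P.reverse)]

/-- passage to inverses -/
lemma MJ_of_inv {ι : Type*} [DecidableEq ι] (T : Finset ι) (v : ι → ℝ) (hv : ∀ i ∈ T, v i ≠ 0)
    (s : ι → Prop) [DecidablePred s] (h : MJ T (fun i => if s i then v i else (v i)⁻¹)) :
    MJ T v := by
  intro D
  obtain ⟨κ, C, hκ, hC, h1⟩ := h D
  -- a common constant
  have h2 : ∃ A : ℝ, 1 ≤ A ∧ ∀ i ∈ T, ∀ P : ℤ[X], P ≠ 0 → P.natDegree ≤ D →
      |aeval (v i)⁻¹ P.reverse| ≤ A * |aeval (v i) P| := by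
    clear h1 h
    induction T using Finset.induction_on with
    | empty => exact ⟨1, le_rfl, fun i hi => absurd hi (notMem_empty i)⟩
    | insert j T hj ih =>
      obtain ⟨A, hA, hA'⟩ := ih fun i hi => hv i (mem_insert_of_mem hi)
      obtain ⟨B, hB, hB'⟩ := rev_bound (v j) (hv j (mem_insert_self j T)) D
      refine ⟨max A B, hA.trans (le_max_left _ _), fun i hi P hP hPD => ?_⟩
      rcases mem_insert.1 hi with rfl | hi
      · exact (hB' P hP hPD).trans (mul_le_mul_of_nonneg_right (le_max_right _ _) (abs_nonneg _))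
      · exact (hA' i hi P hP hPD).trans
          (mul_le_mul_of_nonneg_right (le_max_left _ _) (abs_nonneg _))
  obtain ⟨A, hA, hA'⟩ := h2
  have hA0 : 0 < A := by linarith
  refine ⟨κ, C / A, hκ, by positivity, fun P hP0 hPD H hH hPH => ?_⟩
  obtain ⟨i, hi, h3⟩ := h1 (fun i => if s i then P i else (P i).reverse) (fun i hi => by
      split_ifs
      · exact hP0 i hi
      · rw [Ne, reverse_eq_zero]
        exact hP0 i hi) (fun i hi => by
      split_ifs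
      · exact hPD i hi
      · exact (reverse_natDegree_le _).trans (hPD i hi)) H hH (fun i hi k => by
      split_ifs
      · exact hPH i hi k
      · rw [coeff_reverse]
        exact hPH i hi _)
  refine ⟨i, hi, ?_⟩
  have h4 : C * H ^ (-κ) ≤ A * |aeval (v i) (P i)| := by
    refine h3.trans ?_
    by_cases hs : s i
    · simp only [if_pos hs]
      have := abs_nonneg (aeval (v i) (P i))
      nlinarith
    · simp only [if_neg hs]
      exact hA' i hi (P i) (hP0 i hi) (hPD i hi)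
  rw [div_mul_eq_mul_div, div_le_iff₀ hA0]
  linarith

/-- monomials -/
theorem MJ_of_zpow {ι : Type*} [DecidableEq ι] (T : Finset ι) (v : ι → ℝ) (hv : ∀ i ∈ T, v i ≠ 0)
    (a : ι → ℤ) (hy : MeasT ((∏ i ∈ T, v i ^ a i : ℝ) : ℂ)) : MJ T v := by
  refine MJ_of_inv T v hv (fun i => 0 ≤ a i) ?_
  refine MJ_of_poly T _ (∏ i : T, MvPolynomial.X i ^ (a i).natAbs) ?_
  have h1 : MvPolynomial.aeval (fun i : T => if 0 ≤ a i then v i else (v i)⁻¹)
      (∏ i : T, (MvPolynomial.X i : MvPolynomial T ℤ) ^ (a i).natAbs) = ∏ i ∈ T, v i ^ a i := by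
    rw [map_prod, ← Finset.prod_coe_sort T (fun i => v i ^ a i)]
    refine Finset.prod_congr rfl fun i _ => ?_
    rw [map_pow, MvPolynomial.aeval_X]
    split_ifs with h
    · rw [← zpow_natCast, Int.natAbs_of_nonneg h]
    · push Not at h
      rw [← zpow_natCast, inv_zpow, ← zpow_neg]
      congr 1
      omega
  rw [h1]
  exact hy

/-- linear forms -/
theorem MJ_of_sum {ι : Type*} [DecidableEq ι] (T : Finset ι) (v : ι → ℝ) (a : ι → ℤ)
    (hy : MeasT ((∑ i ∈ T, a i * v i : ℝ) : ℂ)) : MJ T v := by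
  refine MJ_of_poly T _ (∑ i : T, MvPolynomial.C (a i) * MvPolynomial.X i) ?_
  have h1 : MvPolynomial.aeval (fun i : T => v i)
      (∑ i : T, MvPolynomial.C (a i) * (MvPolynomial.X i : MvPolynomial T ℤ)) =
      ∑ i ∈ T, a i * v i := by
    rw [map_sum, ← Finset.sum_coe_sort T (fun i => (a i : ℝ) * v i)]
    refine Finset.sum_congr rfl fun i _ => ?_
    rw [map_mul, MvPolynomial.aeval_X, MvPolynomial.aeval_C]
    rfl
  rw [h1]
  exact hy

/-- **At all scales in a long range one member of the family is good.** -/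
theorem MJ.good {ι : Type*} {T : Finset ι} {v : ι → ℝ} (h : MJ T v) (D : ℕ) (M : ℝ)
    (hM : 1 ≤ M) : ∃ c : ℝ, 0 < c ∧ ∃ X₀ : ℝ, ∀ X : ℝ, X₀ ≤ X → ∃ i ∈ T, ∀ N : ℕ, X ≤ N →
      (N : ℝ) ≤ X ^ M → Good D c N (v i) := by
  classical
  obtain ⟨κ, C, hκ, hC, hj⟩ := h D
  set c : ℝ := 1 / (4 * (1 + 4 * (M * κ))) with hc
  have hMκ : 0 < M * κ := by positivity
  have hc0 : 0 < c := by positivity
  have hc1 : c ≤ 1 / 4 := by
    rw [hc]
    apply one_div_le_one_div_of_le (by norm_num)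
    linarith
  have hcκ : 4 * c * (M * κ) ≤ 1 / 4 := by
    rw [hc]
    have : 4 * (1 / (4 * (1 + 4 * (M * κ)))) * (M * κ) = (M * κ) / (1 + 4 * (M * κ)) := by
      field_simp
    rw [this, div_le_iff₀ (by positivity)]
    linarith
  have hnear : ∃ N₁ : ℕ, ∀ i ∈ T, ∀ N : ℕ, N₁ ≤ N → ¬ Good D c N (v i) →
      ∃ P : ℤ[X], P ≠ 0 ∧ P.natDegree ≤ D ∧ (∀ k, |(P.coeff k : ℝ)| ≤ (N : ℝ) ^ (4 * c)) ∧
        |aeval (v i) P| ≤ 20 * (N : ℝ) ^ (c - 1) := by
    clear hj h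
    induction T using Finset.induction_on with
    | empty => exact ⟨0, fun i hi => absurd hi (notMem_empty i)⟩
    | insert j T hj ih =>
      obtain ⟨N₁, h1⟩ := ih
      obtain ⟨N₂, h2⟩ := near_of_bad D (v j) c hc0 hc1
      refine ⟨max N₁ N₂, fun i hi N hN => ?_⟩
      rcases mem_insert.1 hi with rfl | hi
      · exact h2 N ((le_max_right _ _).trans hN)
      · exact h1 i hi N ((le_max_left _ _).trans hN)
  obtain ⟨N₁, hN₁⟩ := hnear
  have ht : Tendsto (fun X : ℝ => X ^ ((1 : ℝ) / 4)) atTop atTop := tendsto_rpow_atTop (by norm_num)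
  obtain ⟨X₂, hX₂⟩ := (ht.eventually_gt_atTop (20 / C)).exists_forall_of_atTop
  refine ⟨c, hc0, max (N₁ : ℝ) (max X₂ 1), fun X hX => ?_⟩
  have hXa : (N₁ : ℝ) ≤ X := (le_max_left _ _).trans hX
  have hXb : X₂ ≤ X := (le_max_left _ _).trans ((le_max_right _ _).trans hX)
  have hXc : 1 ≤ X := (le_max_right _ _).trans ((le_max_right _ _).trans hX)
  have hX0 : 0 < X := by linarith
  by_contra hcon
  push Not at hcon
  have hex : ∀ i ∈ T, ∃ P : ℤ[X], P ≠ 0 ∧ P.natDegree ≤ D ∧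
      (∀ k, |(P.coeff k : ℝ)| ≤ X ^ (4 * c * M)) ∧ |aeval (v i) P| ≤ 20 * X ^ (c - 1) := by
    intro i hi
    obtain ⟨N, hN1, hN2, hbad⟩ := hcon i hi
    have hN0 : (0 : ℝ) < N := by linarith
    obtain ⟨P, hP0, hPD, hPc, hPv⟩ := hN₁ i hi N (by exact_mod_cast hXa.trans hN1) hbad
    refine ⟨P, hP0, hPD, fun k => (hPc k).trans ?_, hPv.trans ?_⟩
    · calc (N : ℝ) ^ (4 * c) ≤ (X ^ M) ^ (4 * c) := Real.rpow_le_rpow hN0.le hN2 (by positivity)
        _ = X ^ (4 * c * M) := by rw [← Real.rpow_mul hX0.le, mul_comm M]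
    · apply mul_le_mul_of_nonneg_left _ (by norm_num)
      exact Real.rpow_le_rpow_of_nonpos hX0 hN1 (by linarith)
  choose! P hP0 hPD hPc hPv using hex
  obtain ⟨i, hi, h1⟩ := hj P hP0 hPD (X ^ (4 * c * M))
    (Real.one_le_rpow hXc (by positivity)) hPc
  have h2 : C * (X ^ (4 * c * M)) ^ (-κ) ≤ 20 * X ^ (c - 1) := h1.trans (hPv i hi)
  have h3 : (X ^ (4 * c * M)) ^ (-κ) = X ^ (-(4 * c * (M * κ))) := by
    rw [← Real.rpow_mul hX0.le]; ring_nf
  rw [h3] at h2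
  have h4 : X ^ (-(1 : ℝ) / 4) ≤ X ^ (-(4 * c * (M * κ))) :=
    Real.rpow_le_rpow_of_exponent_le hXc (by linarith)
  have h5 : X ^ (c - 1) ≤ X ^ (-(1 : ℝ) / 2) :=
    Real.rpow_le_rpow_of_exponent_le hXc (by linarith)
  have h6 : C * X ^ (-(1 : ℝ) / 4) ≤ 20 * X ^ (-(1 : ℝ) / 2) := by
    have := mul_le_mul_of_nonneg_left h4 hC.le
    linarith
  have h7 : X ^ (-(1 : ℝ) / 4) = X ^ ((1 : ℝ) / 4) * X ^ (-(1 : ℝ) / 2) := by
    rw [← Real.rpow_add hX0]; norm_num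
  rw [h7, ← mul_assoc] at h6
  have h8 : (0 : ℝ) < X ^ (-(1 : ℝ) / 2) := by positivity
  have h9 : C * X ^ ((1 : ℝ) / 4) ≤ 20 := le_of_mul_le_mul_right h6 h8
  have h10 : 20 / C < X ^ ((1 : ℝ) / 4) := hX₂ X hXb
  rw [div_lt_iff₀ hC] at h10
  linarith

/-- the linear alternative -/
lemma alternative {ι : Type*} [DecidableEq ι] {n : ℕ} (T : Finset ι) (m : ι → Fin n → ℚ)
    (k : ι → ℚ) (h : ∀ a : ι → ℤ, (∀ j, ∑ i ∈ T, a i * m i j = 0) → ∑ i ∈ T, a i * k i = 0) :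
    ∃ w : Fin n → ℚ, ∀ i ∈ T, k i = ∑ j, w j * m i j := by
  -- rational coefficients
  have hq : ∀ a : ι → ℚ, (∀ j, ∑ i ∈ T, a i * m i j = 0) → ∑ i ∈ T, a i * k i = 0 := by
    intro a ha
    set d : ℤ := ∏ i ∈ T, ((a i).den : ℤ) with hd
    have hd0 : (d : ℚ) ≠ 0 := by
      rw [hd]
      push_cast
      rw [Finset.prod_ne_zero_iff]
      intro i _
      exact_mod_cast (a i).den_nz
    have hint : ∀ i ∈ T, ∃ b : ℤ, (b : ℚ) = d * a i := by
      intro i hi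
      refine ⟨(∏ j ∈ T.erase i, ((a j).den : ℤ)) * (a i).num, ?_⟩
      have h1 : (d : ℚ) = (a i).den * (∏ j ∈ T.erase i, ((a j).den : ℤ) : ℤ) := by
        rw [hd, ← Finset.mul_prod_erase T (fun j => ((a j).den : ℤ)) hi]
        push_cast
        ring
      have h2 : ((a i).den : ℚ) * a i = (a i).num := by
        rw [mul_comm]; exact Rat.mul_den_eq_num (a i)
      rw [h1, mul_assoc, mul_comm ((∏ j ∈ T.erase i, ((a j).den : ℤ) : ℤ) : ℚ) (a i), ← mul_assoc,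
        h2]
      push_cast
      ring
    choose! b hb using hint
    have h3 := h b (fun j => by
      have h4 : ∑ i ∈ T, (b i : ℚ) * m i j = d * ∑ i ∈ T, a i * m i j := by
        rw [Finset.mul_sum]
        refine Finset.sum_congr rfl fun i hi => ?_
        rw [hb i hi]; ring
      rw [h4, ha j, mul_zero])
    have h5 : ∑ i ∈ T, (b i : ℚ) * k i = d * ∑ i ∈ T, a i * k i := by
      rw [Finset.mul_sum]
      refine Finset.sum_congr rfl fun i hi => ?_
      rw [hb i hi]; ring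
    rw [h5] at h3
    exact (mul_eq_zero.1 h3).resolve_left hd0
  -- the functional
  let L : (T → ℚ) →ₗ[ℚ] (Fin n → ℚ) := ∑ i : T, (LinearMap.proj i : (T → ℚ) →ₗ[ℚ] ℚ).smulRight (m i)
  let K : (T → ℚ) →ₗ[ℚ] ℚ := ∑ i : T, (LinearMap.proj i : (T → ℚ) →ₗ[ℚ] ℚ).smulRight (k i)
  have hL : ∀ b j, L b j = ∑ i : T, b i * m i j := by
    intro b j
    simp [L, Finset.sum_apply]
  have hK : ∀ b, K b = ∑ i : T, b i * k i := by
    intro b
    simp [K]
  have hker : LinearMap.ker L ≤ LinearMap.ker K := by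
    intro b hb
    rw [LinearMap.mem_ker] at hb ⊢
    rw [hK]
    have h1 := hq (fun i => if hi : i ∈ T then b ⟨i, hi⟩ else 0) (fun j => by
      have h2 := congrFun hb j
      rw [hL] at h2
      rw [← Finset.sum_coe_sort T]
      simp only [Finset.coe_mem, dite_true, Subtype.coe_eta]
      exact h2)
    rw [← Finset.sum_coe_sort T] at h1
    simp only [Finset.coe_mem, dite_true, Subtype.coe_eta] at h1
    exact h1
  have hmem : K ∈ LinearMap.range L.dualMap := by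
    rw [LinearMap.range_dualMap_eq_dualAnnihilator_ker, Submodule.mem_dualAnnihilator]
    intro b hb
    exact hker hb
  obtain ⟨g, hg⟩ := hmem
  refine ⟨fun j => g (Pi.single j 1), fun i hi => ?_⟩
  have h6 := LinearMap.congr_fun hg (Pi.single ⟨i, hi⟩ 1)
  rw [LinearMap.dualMap_apply, hK] at h6
  have h7 : ∑ x : T, (Pi.single (⟨i, hi⟩ : T) (1 : ℚ) : T → ℚ) x * k x = k i := by
    rw [Finset.sum_eq_single ⟨i, hi⟩]
    · simp
    · intro b _ hb
      rw [Pi.single_eq_of_ne hb, zero_mul]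
    · intro h; exact absurd (mem_univ _) h
  have h8 : L (Pi.single ⟨i, hi⟩ 1) = m i := by
    funext j
    rw [hL, Finset.sum_eq_single ⟨i, hi⟩]
    · simp
    · intro b _ hb
      rw [Pi.single_eq_of_ne hb, zero_mul]
    · intro h; exact absurd (mem_univ _) h
  have h9 : m i = ∑ j, (m i j) • (Pi.single j 1 : Fin n → ℚ) := by
    ext l
    simp [Finset.sum_apply, Pi.single_apply]
  rw [h7, h8] at h6
  rw [← h6]
  conv_lhs => rw [h9]
  rw [map_sum]
  refine Finset.sum_congr rfl fun j _ => ?_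
  rw [map_smul, smul_eq_mul, mul_comm]

/-- **The exceptional hyperplane.** -/
theorem engine {ι : Type*} [DecidableEq ι] {n : ℕ} (F : Finset ι) (m : ι → Fin n → ℚ)
    (k : ι → ℚ) (v : ι → ℝ) (h : ∀ T ⊆ F, ∀ a : ι → ℤ, (∀ j, ∑ i ∈ T, a i * m i j = 0) →
      ∑ i ∈ T, a i * k i ≠ 0 → MJ T v) (D : ℕ) (M : ℝ) (hM : 1 ≤ M) :
    ∃ c : ℝ, 0 < c ∧ ∃ X₀ : ℝ, ∀ X : ℝ, X₀ ≤ X → ∃ w : Fin n → ℚ,
      ∀ i ∈ F, k i ≠ ∑ j, w j * m i j → ∀ N : ℕ, X ≤ N → (N : ℝ) ≤ X ^ M → Good D c N (v i) := by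
  classical
  -- one constant for all degenerate subsets
  have key : ∀ 𝒮 : Finset (Finset ι), (∀ T ∈ 𝒮, MJ T v) →
      ∃ c : ℝ, 0 < c ∧ ∃ X₀ : ℝ, 1 ≤ X₀ ∧ ∀ X : ℝ, X₀ ≤ X → ∀ T ∈ 𝒮, ∃ i ∈ T, ∀ N : ℕ, X ≤ N →
        (N : ℝ) ≤ X ^ M → Good D c N (v i) := by
    intro 𝒮
    induction 𝒮 using Finset.induction_on with
    | empty => intro _; exact ⟨1, one_pos, 1, le_rfl, fun X _ T hT => absurd hT (notMem_empty T)⟩
    | insert S 𝒮 hS ih =>
      intro h𝒮
      obtain ⟨c, hc, X₀, hX₀, h1⟩ := ih fun T hT => h𝒮 T (mem_insert_of_mem hT)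
      obtain ⟨c', hc', X₁, h2⟩ := (h𝒮 S (mem_insert_self _ _)).good D M hM
      refine ⟨min c c', lt_min hc hc', max X₀ X₁, hX₀.trans (le_max_left _ _),
        fun X hX T hT => ?_⟩
      have hX1 : 1 ≤ X := hX₀.trans ((le_max_left _ _).trans hX)
      rcases mem_insert.1 hT with rfl | hT
      · obtain ⟨i, hi, h3⟩ := h2 X ((le_max_right _ _).trans hX)
        refine ⟨i, hi, fun N hN1 hN2 => (h3 N hN1 hN2).mono ?_ (min_le_right _ _)⟩
        exact_mod_cast hX1.trans hN1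
      · obtain ⟨i, hi, h3⟩ := h1 X ((le_max_left _ _).trans hX) T hT
        refine ⟨i, hi, fun N hN1 hN2 => (h3 N hN1 hN2).mono ?_ (min_le_left _ _)⟩
        exact_mod_cast hX1.trans hN1
  obtain ⟨c, hc, X₀, hX₀, h1⟩ := key (F.powerset.filter fun T => MJ T v)
    fun T hT => (mem_filter.1 hT).2
  refine ⟨c, hc, X₀, fun X hX => ?_⟩
  set T : Finset ι := F.filter fun i => ∃ N : ℕ, X ≤ N ∧ (N : ℝ) ≤ X ^ M ∧ ¬ Good D c N (v i)
    with hT
  have hTF : T ⊆ F := filter_subset _ _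
  have hnot : ¬ MJ T v := by
    intro hMJ
    obtain ⟨i, hi, h2⟩ := h1 X hX T (mem_filter.2 ⟨mem_powerset.2 hTF, hMJ⟩)
    obtain ⟨N, hN1, hN2, hN3⟩ := (mem_filter.1 hi).2
    exact hN3 (h2 N hN1 hN2)
  obtain ⟨w, hw⟩ := alternative T m k fun a ha => by
    by_contra hne
    exact hnot (h T hTF a ha hne)
  refine ⟨w, fun i hi hne N hN1 hN2 => ?_⟩
  by_contra hbad
  exact hne (hw i (mem_filter.2 ⟨hi, N, hN1, hN2, hbad⟩))

end Pool.Agent.U831.MU
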