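import Mathlib
import Pool.Agent.U831.MU.Engine

/-!
# Exceptional monomials
-/

set_option autoImplicit false

namespace Pool.Agent.U831.MU

open Finset Polynomial Pool.Agent.TH456.TM Pool.Agent.U831.JE

lemma prod_alg {ι : Type*} [DecidableEq ι] (T : Finset ι) (q : ι → ℝ) (hq0 : ∀ i ∈ T, q i ≠ 0)
    (hq : ∀ i ∈ T, IsAlgebraic ℚ (q i)) (a : ι → ℤ) :
    (∏ i ∈ T, q i ^ a i) ≠ 0 ∧ IsAlgebraic ℚ (∏ i ∈ T, q i ^ a i) := by
  induction T using Finset.induction_on with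
  | empty => exact ⟨by simp, by simpa using isAlgebraic_one⟩
  | insert i T hi ih =>
    obtain ⟨h1, h2⟩ := ih (fun j hj => hq0 j (mem_insert_of_mem hj))
      (fun j hj => hq j (mem_insert_of_mem hj))
    rw [Finset.prod_insert hi]
    refine ⟨mul_ne_zero (zpow_ne_zero _ (hq0 i (mem_insert_self i T))) h1, IsAlgebraic.mul ?_ h2⟩
    have h3 := hq i (mem_insert_self i T)
    rcases Int.eq_nat_or_neg (a i) with ⟨n, h | h⟩
    · rw [h, zpow_natCast]; exact h3.pow n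
    · rw [h, zpow_neg, zpow_natCast]; exact (h3.pow n).inv

/-- **Exceptional monomials.** Let `x` be a number with a transcendence measure and `z_1, …, z_n`
arbitrary nonzero numbers. On every long range of scales there are rational weights `w_i` such
that of the finitely many numbers `q z_1^{m_1} ⋯ z_n^{m_n} x^k` (`q` algebraic) only those with
`k = ∑ w_i m_i` are exceptional. -/
theorem mono {ι : Type*} [DecidableEq ι] {n : ℕ} (z : Fin n → ℝ) (hz : ∀ i, z i ≠ 0) (x : ℝ)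
    (hx0 : x ≠ 0) (hx : MeasT (x : ℂ)) (F : Finset ι) (q : ι → ℝ) (hq0 : ∀ i ∈ F, q i ≠ 0)
    (hq : ∀ i ∈ F, IsAlgebraic ℚ (q i)) (m : ι → Fin n → ℤ) (k : ι → ℤ) (D : ℕ) (M : ℝ)
    (hM : 1 ≤ M) :
    ∃ c : ℝ, 0 < c ∧ ∃ X₀ : ℝ, ∀ X : ℝ, X₀ ≤ X → ∃ w : Fin n → ℚ, ∀ i ∈ F,
      (k i : ℚ) ≠ ∑ j, w j * m i j → ∀ N : ℕ, X ≤ N → (N : ℝ) ≤ X ^ M →
        Good D c N (q i * (∏ j, z j ^ m i j) * x ^ k i) := by
  refine engine F (fun i j => (m i j : ℚ)) (fun i => (k i : ℚ))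
    (fun i => q i * (∏ j, z j ^ m i j) * x ^ k i) (fun T hT a h0 h1 => ?_) D M hM
  have hv : ∀ i ∈ T, q i * (∏ j, z j ^ m i j) * x ^ k i ≠ 0 := fun i hi =>
    mul_ne_zero (mul_ne_zero (hq0 i (hT hi)) (Finset.prod_ne_zero_iff.2 fun j _ =>
      zpow_ne_zero _ (hz j))) (zpow_ne_zero _ hx0)
  obtain ⟨h2, h3⟩ := prod_alg T q (fun i hi => hq0 i (hT hi)) (fun i hi => hq i (hT hi)) a
  have h0' : ∀ j, ∑ i ∈ T, a i * m i j = 0 := by
    intro j
    have := h0 j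
    exact_mod_cast this
  have h1' : ∑ i ∈ T, a i * k i ≠ 0 := by
    intro h
    apply h1
    exact_mod_cast congrArg (fun t : ℤ => (t : ℚ)) h
  have key : ∏ i ∈ T, (q i * (∏ j, z j ^ m i j) * x ^ k i) ^ a i =
      (∏ i ∈ T, q i ^ a i) * x ^ (∑ i ∈ T, a i * k i) := by
    have e1 : ∀ i ∈ T, (q i * (∏ j, z j ^ m i j) * x ^ k i) ^ a i =
        q i ^ a i * (∏ j, z j ^ (a i * m i j)) * x ^ (a i * k i) := by
      intro i _
      rw [mul_zpow, mul_zpow, ← Finset.prod_zpow, ← zpow_mul, mul_comm (k i)]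
      congr 2
      refine Finset.prod_congr rfl fun j _ => ?_
      rw [← zpow_mul, mul_comm (m i j)]
    rw [Finset.prod_congr rfl e1, Finset.prod_mul_distrib, Finset.prod_mul_distrib,
      Finset.prod_comm]
    have e2 : ∀ (y : ℝ), y ≠ 0 → ∀ b : ι → ℤ, ∏ i ∈ T, y ^ (b i) = y ^ (∑ i ∈ T, b i) := by
      intro y hy b
      clear h0 h1 h0' h1' e1 h2 h3 hv hT
      induction T using Finset.induction_on with
      | empty => simp
      | insert i T hi ih => rw [Finset.prod_insert hi, Finset.sum_insert hi, ih, zpow_add₀ hy]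
    rw [e2 x hx0]
    have e3 : ∏ j, ∏ i ∈ T, z j ^ (a i * m i j) = 1 := by
      refine Finset.prod_eq_one fun j _ => ?_
      rw [e2 (z j) (hz j), h0' j, zpow_zero]
    rw [e3, mul_one]
  refine MJ_of_zpow T _ hv a ?_
  rw [key]
  have h4 : MeasT (((x : ℝ) : ℂ) ^ (∑ i ∈ T, a i * k i)) := measT_zpow hx _ h1'
  have h5 := measT_mul_alg h4 (((∏ i ∈ T, q i ^ a i : ℝ)) : ℂ) (by
    have h6 : IsAlgebraic ℚ ((∏ i ∈ T, q i ^ a i : ℝ) : ℂ) := by
      have := h3.algebraMap (A := ℂ)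
      simpa using this
    exact (IsFractionRing.isAlgebraic_iff ℤ ℚ ℂ).2 h6) (by exact_mod_cast h2)
  have h7 : ((((∏ i ∈ T, q i ^ a i) * x ^ (∑ i ∈ T, a i * k i) : ℝ)) : ℂ) =
      ((∏ i ∈ T, q i ^ a i : ℝ) : ℂ) * (x : ℂ) ^ (∑ i ∈ T, a i * k i) := by
    rw [Complex.ofReal_mul, Complex.ofReal_zpow]
  rw [h7]
  first | exact h5 | (rw [mul_comm]; exact h5)

end Pool.Agent.U831.MU
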