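import Mathlib
import Pool.Agent.U831.MU.Mono

/-!
# Algebraic numbers are exceptional at all large scales
-/

set_option autoImplicit false

namespace Pool.Agent.U831.MU

open Finset Polynomial Filter Pool.Agent.TH456.TM Pool.Agent.U831.JE

lemma cnt_zero (N : ℕ) : cnt 0 0 0 (1 / 2) N = N := by
  unfold cnt
  rw [filter_true_of_mem, card_range]
  intro n _
  simp

/-- an algebraic number of degree at most `D` is not good at large scales -/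
lemma not_good (D : ℕ) (c : ℝ) (hc : 0 < c) (x : ℝ) (P : ℤ[X]) (hP : P ≠ 0)
    (hD : P.natDegree ≤ D) (h : aeval x P = 0) : ∃ N₀ : ℕ, ∀ N : ℕ, N₀ ≤ N → ¬ Good D c N x := by
  have hdeg : 1 ≤ P.natDegree := by
    by_contra hlt
    have h0 : P.natDegree = 0 := by omega
    rw [eq_C_of_natDegree_eq_zero h0, aeval_C] at h
    apply hP
    rw [eq_C_of_natDegree_eq_zero h0]
    have : P.coeff 0 = 0 := by
      have h1 : ((P.coeff 0 : ℤ) : ℝ) = 0 := h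
      exact_mod_cast h1
    rw [this, map_zero]
  obtain ⟨B, hB⟩ : ∃ B : ℝ, ∀ k, |(P.coeff k : ℝ)| ≤ B := by
    refine ⟨∑ k ∈ P.support, |(P.coeff k : ℝ)|, fun k => ?_⟩
    by_cases hk : k ∈ P.support
    · exact Finset.single_le_sum (f := fun k => |(P.coeff k : ℝ)|) (fun i _ => abs_nonneg _) hk
    · rw [notMem_support_iff.1 hk]
      simp only [Int.cast_zero, abs_zero]
      exact Finset.sum_nonneg fun i _ => abs_nonneg _
  have ht : Tendsto (fun N : ℕ => (N : ℝ) ^ c) atTop atTop :=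
    (tendsto_rpow_atTop hc).comp tendsto_natCast_atTop_atTop
  obtain ⟨N₀, hN₀⟩ := ((ht.eventually_ge_atTop (max B 3)).and
    (eventually_ge_atTop 1)).exists_forall_of_atTop
  refine ⟨N₀, fun N hN hg => ?_⟩
  obtain ⟨h1, h2⟩ := hN₀ N hN
  have hN0 : (0 : ℝ) < N := by exact_mod_cast h2
  have h3 := hg P hdeg hD (fun k => (hB k).trans ((le_max_left _ _).trans h1)) 0 0 (1 / 2)
    le_rfl (by norm_num) (by norm_num)
  rw [h, cnt_zero] at h3
  have h4 : (N : ℝ) ^ (-c) ≤ 1 / 3 := by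
    rw [Real.rpow_neg hN0.le, ← one_div]
    exact one_div_le_one_div_of_le (by norm_num) ((le_max_right _ _).trans h1)
  have h5 : |(N : ℝ) - (1 / 2 - 0) * N| = N / 2 := by
    rw [show (N : ℝ) - (1 / 2 - 0) * N = N / 2 by ring, abs_of_pos (by positivity)]
  rw [h5] at h3
  nlinarith

/-- uniform version for a finite family, at the scale `⌈X⌉` -/
theorem compat {ι : Type*} [DecidableEq ι] (F : Finset ι) (v : ι → ℝ) (D : ℕ) (c : ℝ)
    (hc : 0 < c) : ∃ X₁ : ℝ, ∀ X : ℝ, X₁ ≤ X → ∀ i ∈ F,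
      (∃ P : ℤ[X], P ≠ 0 ∧ P.natDegree ≤ D ∧ aeval (v i) P = 0) → ¬ Good D c ⌈X⌉₊ (v i) := by
  induction F using Finset.induction_on with
  | empty => exact ⟨0, fun X _ i hi => absurd hi (notMem_empty i)⟩
  | insert j F hj ih =>
    obtain ⟨X₁, h1⟩ := ih
    by_cases hx : ∃ P : ℤ[X], P ≠ 0 ∧ P.natDegree ≤ D ∧ aeval (v j) P = 0
    · obtain ⟨P, hP, hPD, hP0⟩ := hx
      obtain ⟨N₀, hN₀⟩ := not_good D c hc (v j) P hP hPD hP0
      refine ⟨max X₁ N₀, fun X hX i hi hex => ?_⟩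
      rcases mem_insert.1 hi with rfl | hi
      · refine hN₀ _ ?_
        have h3 : (N₀ : ℝ) ≤ ⌈X⌉₊ := ((le_max_right _ _).trans hX).trans (Nat.le_ceil X)
        exact_mod_cast h3
      · exact h1 X ((le_max_left _ _).trans hX) i hi hex
    · refine ⟨X₁, fun X hX i hi hex => ?_⟩
      rcases mem_insert.1 hi with rfl | hi
      · exact absurd hex hx
      · exact h1 X hX i hi hex

lemma ceil_range (X M : ℝ) (hX : 2 ≤ X) (hM : 2 ≤ M) :
    X ≤ (⌈X⌉₊ : ℝ) ∧ ((⌈X⌉₊ : ℕ) : ℝ) ≤ X ^ M := by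
  refine ⟨Nat.le_ceil X, ?_⟩
  have h1 : ((⌈X⌉₊ : ℕ) : ℝ) < X + 1 := Nat.ceil_lt_add_one (by linarith)
  have h2 : X ^ (2 : ℝ) ≤ X ^ M := Real.rpow_le_rpow_of_exponent_le (by linarith) hM
  have h3 : X ^ (2 : ℝ) = X * X := by
    rw [show (2 : ℝ) = ((2 : ℕ) : ℝ) by norm_num, Real.rpow_natCast]; ring
  rw [h3] at h2
  have h4 : 2 * X ≤ X * X := mul_le_mul_of_nonneg_right hX (by linarith)
  linarith

/-- **The weights and the algebraic relations.** -/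
theorem engine' {ι : Type*} [DecidableEq ι] {n : ℕ} (F : Finset ι) (m : ι → Fin n → ℚ)
    (k : ι → ℚ) (v : ι → ℝ) (D : ℕ) (M : ℝ) (hM : 2 ≤ M)
    (h : ∃ c : ℝ, 0 < c ∧ ∃ X₀ : ℝ, ∀ X : ℝ, X₀ ≤ X → ∃ w : Fin n → ℚ,
      ∀ i ∈ F, k i ≠ ∑ j, w j * m i j → ∀ N : ℕ, X ≤ N → (N : ℝ) ≤ X ^ M → Good D c N (v i)) :
    ∃ c : ℝ, 0 < c ∧ ∃ X₀ : ℝ, ∀ X : ℝ, X₀ ≤ X → ∃ w : Fin n → ℚ,
      (∀ i ∈ F, (∃ P : ℤ[X], P ≠ 0 ∧ P.natDegree ≤ D ∧ aeval (v i) P = 0) →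
        k i = ∑ j, w j * m i j) ∧
      ∀ i ∈ F, k i ≠ ∑ j, w j * m i j → ∀ N : ℕ, X ≤ N → (N : ℝ) ≤ X ^ M →
        Good D c N (v i) := by
  obtain ⟨c, hc, X₀, h1⟩ := h
  obtain ⟨X₁, h2⟩ := compat F v D c hc
  refine ⟨c, hc, max X₀ (max X₁ 2), fun X hX => ?_⟩
  obtain ⟨w, hw⟩ := h1 X ((le_max_left _ _).trans hX)
  refine ⟨w, fun i hi hP => ?_, hw⟩
  by_contra hne
  have h3 := ceil_range X M ((le_max_right _ _).trans ((le_max_right _ _).trans hX)) hM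
  exact h2 X ((le_max_left _ _).trans ((le_max_right _ _).trans hX)) i hi hP
    (hw i hi hne _ h3.1 h3.2)

end Pool.Agent.U831.MU
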