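import Mathlib
import Pool.Agent.U831.MU.Engine

/-!
# The field of the numbers with very good algebraic approximations at given scales
-/

set_option autoImplicit false

namespace Pool.Agent.U831.MU

open Finset Polynomial Filter Pool.Agent.R356 Pool.Agent.TH456.TM Pool.Agent.U831.JE

/-- `y` has algebraic approximations of bounded degree and of height a power of `H n` with errors
smaller than every power of `1 / H n` -/
def Aa (H : ℕ → ℝ) (y : ℝ) : Prop :=
  ∃ D A : ℕ, ∀ E : ℕ, ∀ᶠ n in atTop, ∃ P : ℤ[X], P ≠ 0 ∧ P.natDegree ≤ D ∧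
    (∀ k, |(P.coeff k : ℝ)| ≤ H n ^ A) ∧ |aeval y P| ≤ 1 / H n ^ E

variable {H : ℕ → ℝ}

/-- a common module for finitely many such numbers -/
theorem Aa.common (hH : Tendsto H atTop atTop) {r : ℕ} (u : Fin r → ℝ) (hu : ∀ i, Aa H (u i)) :
    ∃ (ι : Type) (_ : Fintype ι) (_ : DecidableEq ι) (W : ι → ℝ) (f₀ : ι), W f₀ = 1 ∧
      ∃ A : ℕ, ∀ E : ℕ, ∀ᶠ n in atTop, ∀ i, Rep W (H n ^ A) (1 / H n ^ E) (u i) := by
  choose d a hda using hu
  obtain ⟨D, hD⟩ : ∃ D : ℕ, ∀ i, d i ≤ D := ⟨∑ i, d i, fun i =>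
    Finset.single_le_sum (fun j _ => Nat.zero_le (d j)) (mem_univ i)⟩
  obtain ⟨A, hA⟩ : ∃ A : ℕ, ∀ i, a i ≤ A := ⟨∑ i, a i, fun i =>
    Finset.single_le_sum (fun j _ => Nat.zero_le (a j)) (mem_univ i)⟩
  obtain ⟨ι, hF, hDec, W, f₀, B, hW, hB, hWB, hbase⟩ := base D r u
  obtain ⟨U, hU1, hU⟩ : ∃ U : ℝ, 1 ≤ U ∧ ∀ i, |u i| ≤ U := by
    refine ⟨1 + ∑ i, |u i|, ?_, fun i => ?_⟩
    · have : 0 ≤ ∑ i, |u i| := Finset.sum_nonneg fun i _ => abs_nonneg _
      linarith
    · have := Finset.single_le_sum (f := fun i => |u i|) (fun i _ => abs_nonneg _) (mem_univ i)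
      linarith
  refine ⟨ι, hF, hDec, W, f₀, hW, A, fun E => ?_⟩
  have hall : ∀ᶠ n in atTop, ∀ i, ∃ P : ℤ[X], P ≠ 0 ∧ P.natDegree ≤ d i ∧
      (∀ k, |(P.coeff k : ℝ)| ≤ H n ^ a i) ∧ |aeval (u i) P| ≤ 1 / H n ^ (E + 1) :=
    eventually_all.2 fun i => hda i (E + 1)
  filter_upwards [hall, hH.eventually_ge_atTop 1, hH.eventually_ge_atTop (B * U ^ (D + 1))]
    with n hn h1 h2
  choose P hP0 hPd hPc hPv using hn
  have hH0 : 0 < H n := by linarith
  have hrep := hbase (fun i => X ^ (D + 1 - (P i).natDegree) * P i) (H n ^ A)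
    (U ^ (D + 1) * (1 / H n ^ (E + 1)))
    (fun i => by
      rw [natDegree_mul (pow_ne_zero _ X_ne_zero) (hP0 i), natDegree_X_pow]
      have := hPd i
      have := hD i
      omega) (one_le_pow₀ h1) (fun i j => by
      rw [mul_comm, coeff_mul_X_pow']
      split_ifs
      · exact (hPc i _).trans (pow_le_pow_right₀ h1 (hA i))
      · simp only [Int.cast_zero, abs_zero]
        positivity) (by positivity) (fun i => by
      rw [map_mul, map_pow, aeval_X, abs_mul, abs_pow]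
      refine mul_le_mul ?_ (hPv i) (abs_nonneg _) (by positivity)
      calc |u i| ^ (D + 1 - (P i).natDegree) ≤ U ^ (D + 1 - (P i).natDegree) :=
            pow_le_pow_left₀ (abs_nonneg _) (hU i) _
        _ ≤ U ^ (D + 1) := pow_le_pow_right₀ hU1 (by omega))
  intro i
  refine (hrep i).mono le_rfl ?_
  calc B * (U ^ (D + 1) * (1 / H n ^ (E + 1))) = (B * U ^ (D + 1)) * (1 / H n ^ (E + 1)) := by ring
    _ ≤ H n * (1 / H n ^ (E + 1)) := mul_le_mul_of_nonneg_right h2 (by positivity)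
    _ = 1 / H n ^ E := by
        rw [pow_succ]
        field_simp

/-- a number which is represented in this way has such approximations -/
theorem Aa.of_rep (hH : Tendsto H atTop atTop) {ι : Type} [Fintype ι] [DecidableEq ι] (W : ι → ℝ)
    (f₀ : ι) (hW : W f₀ = 1) (y : ℝ) (A : ℕ)
    (h : ∀ E : ℕ, ∀ᶠ n in atTop, Rep W (H n ^ A) (1 / H n ^ E) y) : Aa H y := by
  set n₀ : ℕ := Fintype.card ι with hn₀
  refine ⟨n₀, 1 + 2 * A * n₀, fun E => ?_⟩
  filter_upwards [h (E + 1 + A * n₀), hH.eventually_ge_atTop 1,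
    hH.eventually_ge_atTop (n₀.factorial * 2 ^ n₀),
    hH.eventually_ge_atTop (n₀ * (n₀.factorial * (|y| + 1) ^ n₀))] with n hn h1 h2 h3
  have hH0 : 0 < H n := by linarith
  obtain ⟨R, hR0, hRd, hRc, hRy⟩ := hn.near (one_le_pow₀ h1) f₀ hW
  rw [← hn₀] at hRd hRc hRy
  refine ⟨R, hR0, hRd, fun k => (hRc k).trans ?_, hRy.trans ?_⟩
  · have e1 : (1 : ℝ) + H n ^ A ≤ 2 * H n ^ A := by
      have : (1 : ℝ) ≤ H n ^ A := one_le_pow₀ h1
      linarith
    calc (n₀.factorial : ℝ) * (1 + H n ^ A) ^ n₀ * (H n ^ A) ^ n₀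
        ≤ n₀.factorial * (2 * H n ^ A) ^ n₀ * (H n ^ A) ^ n₀ := by
          apply mul_le_mul_of_nonneg_right _ (by positivity)
          apply mul_le_mul_of_nonneg_left _ (by positivity)
          exact pow_le_pow_left₀ (by positivity) e1 _
      _ = (n₀.factorial * 2 ^ n₀) * H n ^ (2 * A * n₀) := by
          rw [mul_pow, ← pow_mul, show 2 * A * n₀ = A * n₀ + A * n₀ by ring, pow_add]
          ring
      _ ≤ H n * H n ^ (2 * A * n₀) := mul_le_mul_of_nonneg_right h2 (by positivity)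
      _ = H n ^ (1 + 2 * A * n₀) := by rw [pow_add, pow_one]
  · calc (n₀ : ℝ) * (n₀.factorial * (H n ^ A * (|y| + 1)) ^ n₀) * (1 / H n ^ (E + 1 + A * n₀))
        = (n₀ * (n₀.factorial * (|y| + 1) ^ n₀)) * (H n ^ (A * n₀) * (1 / H n ^ (E + 1 + A * n₀))) := by
          rw [mul_pow, ← pow_mul]
          ring
      _ ≤ H n * (H n ^ (A * n₀) * (1 / H n ^ (E + 1 + A * n₀))) :=
          mul_le_mul_of_nonneg_right h3 (by positivity)
      _ = 1 / H n ^ E := by
          rw [pow_add (H n) (E + 1), pow_succ]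
          field_simp

lemma Aa.int (hH : Tendsto H atTop atTop) (z : ℤ) : Aa H (z : ℝ) := by
  refine ⟨1, 1, fun E => ?_⟩
  filter_upwards [hH.eventually_ge_atTop (1 + |(z : ℝ)|)] with n hn
  have h0 : 0 < H n := by linarith [abs_nonneg (z : ℝ)]
  refine ⟨X - C z, X_sub_C_ne_zero z, by rw [natDegree_X_sub_C], fun k => ?_, ?_⟩
  · rw [pow_one, coeff_sub, coeff_X, coeff_C]
    push_cast
    refine (abs_sub _ _).trans ?_
    have a1 : |(if 1 = k then (1 : ℝ) else 0)| ≤ 1 := by split_ifs <;> norm_num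
    have a2 : |(if k = 0 then (z : ℝ) else 0)| ≤ |(z : ℝ)| := by
      split_ifs
      · exact le_rfl
      · rw [abs_zero]; exact abs_nonneg _
    linarith
  · have : aeval (z : ℝ) (X - C z) = 0 := by simp
    rw [this, abs_zero]
    positivity

lemma Aa.add (hH : Tendsto H atTop atTop) {x y : ℝ} (hx : Aa H x) (hy : Aa H y) :
    Aa H (x + y) := by
  obtain ⟨ι, _, _, W, f₀, hW, A, h⟩ := Aa.common hH ![x, y] (by
    intro i; fin_cases i
    · exact hx
    · exact hy)
  refine Aa.of_rep hH W f₀ hW _ (2 * A + 1) fun E => ?_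
  filter_upwards [h (E + A + 1), hH.eventually_ge_atTop 2] with n hn h2
  have h1 : 1 ≤ H n := by linarith
  have h0 : 0 < H n := by linarith
  have h3 := (hn 0).add (hn 1)
  refine h3.mono ?_ ?_
  · calc 2 * H n ^ A * H n ^ A ≤ H n * H n ^ A * H n ^ A := by
          apply mul_le_mul_of_nonneg_right _ (by positivity)
          exact mul_le_mul_of_nonneg_right h2 (by positivity)
      _ = H n ^ (2 * A + 1) := by ring
  · calc H n ^ A * (1 / H n ^ (E + A + 1)) + H n ^ A * (1 / H n ^ (E + A + 1))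
        = 2 * (H n ^ A * (1 / H n ^ (E + A + 1))) := by ring
      _ ≤ H n * (H n ^ A * (1 / H n ^ (E + A + 1))) :=
          mul_le_mul_of_nonneg_right h2 (by positivity)
      _ = 1 / H n ^ E := by
          rw [pow_add, pow_add, pow_one]
          field_simp

lemma Aa.mul (hH : Tendsto H atTop atTop) {x y : ℝ} (hx : Aa H x) (hy : Aa H y) :
    Aa H (x * y) := by
  obtain ⟨ι, _, _, W, f₀, hW, A, h⟩ := Aa.common hH ![x, y] (by
    intro i; fin_cases i
    · exact hx
    · exact hy)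
  set m : ℝ := (Fintype.card ι : ℝ) with hm
  have hm0 : 0 ≤ m := by positivity
  refine Aa.of_rep hH W f₀ hW _ (2 * A + 1) fun E => ?_
  filter_upwards [h (E + A + 1), hH.eventually_ge_atTop (m + 1 + |x|)] with n hn h2
  have h1 : 1 ≤ H n := by linarith [abs_nonneg x]
  have h0 : 0 < H n := by linarith
  have h3 := (hn 0).mul (hn 1)
  have e0 : (![x, y] : Fin 2 → ℝ) 0 = x := rfl
  have e1 : (![x, y] : Fin 2 → ℝ) 1 = y := rfl
  rw [e0, e1, ← hm] at h3
  refine h3.mono ?_ ?_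
  · calc (m + 1) * H n ^ A * H n ^ A ≤ H n * H n ^ A * H n ^ A := by
          apply mul_le_mul_of_nonneg_right _ (by positivity)
          apply mul_le_mul_of_nonneg_right _ (by positivity)
          linarith [abs_nonneg x]
      _ = H n ^ (2 * A + 1) := by ring
  · calc m * H n ^ A * (1 / H n ^ (E + A + 1)) + H n ^ A * |x| * (1 / H n ^ (E + A + 1))
        = (m + |x|) * (H n ^ A * (1 / H n ^ (E + A + 1))) := by ring
      _ ≤ H n * (H n ^ A * (1 / H n ^ (E + A + 1))) := by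
          apply mul_le_mul_of_nonneg_right _ (by positivity)
          linarith
      _ = 1 / H n ^ E := by
          rw [pow_add, pow_add, pow_one]
          field_simp

lemma Aa.inv (hH : Tendsto H atTop atTop) {x : ℝ} (hx : Aa H x) : Aa H x⁻¹ := by
  by_cases hx0 : x = 0
  · rw [hx0, inv_zero]
    have := Aa.int hH 0
    simpa using this
  obtain ⟨D, A, h⟩ := hx
  obtain ⟨C, hC, hrev⟩ := rev_bound x hx0 D
  refine ⟨D, A, fun E => ?_⟩
  filter_upwards [h (E + 1), hH.eventually_ge_atTop C] with n hn h2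
  obtain ⟨P, hP0, hPD, hPc, hPv⟩ := hn
  have h0 : 0 < H n := by linarith
  refine ⟨P.reverse, by rwa [Ne, reverse_eq_zero], (reverse_natDegree_le _).trans hPD,
    fun k => by rw [coeff_reverse]; exact hPc _, ?_⟩
  calc |aeval x⁻¹ P.reverse| ≤ C * |aeval x P| := hrev P hP0 hPD
    _ ≤ H n * (1 / H n ^ (E + 1)) := mul_le_mul h2 hPv (abs_nonneg _) h0.le
    _ = 1 / H n ^ E := by rw [pow_succ]; field_simp

/-- the field of these numbers -/
def aaField (H : ℕ → ℝ) (hH : Tendsto H atTop atTop) : Subfield ℝ where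
  carrier := {x | Aa H x}
  mul_mem' := fun hx hy => Aa.mul hH hx hy
  one_mem' := by
    have h := Aa.int hH 1
    simpa using h
  add_mem' := fun hx hy => Aa.add hH hx hy
  zero_mem' := by
    have h := Aa.int hH 0
    simpa using h
  neg_mem' := by
    intro x hx
    have h := Aa.mul hH (Aa.int hH (-1)) hx
    have e : ((-1 : ℤ) : ℝ) * x = -x := by push_cast; ring
    rw [e] at h
    exact h
  inv_mem' := fun x hx => Aa.inv hH hx

/-- roots of monic polynomials with represented coefficients -/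
lemma Rep.root {ι : Type} [Fintype ι] [DecidableEq ι] (W : ι → ℝ) (K ε : ℝ) (hK : 1 ≤ K)
    (hε : 0 ≤ ε) (k : ℕ) (b : Fin (k + 1) → ℝ) (hb : ∀ j, Rep W K ε (b j)) (y : ℝ)
    (hy : y ^ (k + 1) = ∑ j : Fin (k + 1), b j * y ^ (j : ℕ)) :
    Rep (fun p : Fin (k + 1) × ι => y ^ (p.1 : ℕ) * W p.2) (K ^ (k + 1))
      ((k + 1) * (K ^ (k + 1) * (1 + |y|) ^ (k + 1)) * ε) y := by
  choose c B hc hcK hB h1 using hb
  set Cc : ℤ := ∏ j, c j with hCc
  have hK0 : 0 < K := by linarith
  have hCK : |(Cc : ℝ)| ≤ K ^ (k + 1) := by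
    rw [hCc]
    push_cast
    rw [Finset.abs_prod]
    calc ∏ j, |(c j : ℝ)| ≤ ∏ _j : Fin (k + 1), K :=
          Finset.prod_le_prod (fun j _ => abs_nonneg _) fun j _ => hcK j
      _ = K ^ (k + 1) := by simp
  set c' : Fin (k + 1) → ℤ := fun j => ∏ i ∈ univ.erase j, c i with hc'
  have hcc' : ∀ j, (Cc : ℝ) = c' j * c j := by
    intro j
    rw [hCc, hc', ← Finset.prod_erase_mul univ c (mem_univ j)]
    push_cast
    rfl
  have hc'K : ∀ j, |(c' j : ℝ)| ≤ K ^ k := by
    intro j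
    rw [hc']
    push_cast
    rw [Finset.abs_prod]
    calc ∏ i ∈ univ.erase j, |(c i : ℝ)| ≤ ∏ _i ∈ univ.erase j, K :=
          Finset.prod_le_prod (fun j _ => abs_nonneg _) fun j _ => hcK j
      _ = K ^ k := by
          rw [Finset.prod_const, Finset.card_erase_of_mem (mem_univ j)]
          simp
  refine ⟨Cc, fun p q => if (p.1 : ℕ) = k then c' q.1 * B q.1 p.2 q.2 else
    if (q.1 : ℕ) = p.1 + 1 ∧ q.2 = p.2 then Cc else 0, ?_, hCK, fun p q => ?_, fun p => ?_⟩
  · rw [hCc, Finset.prod_ne_zero_iff]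
    exact fun j _ => hc j
  · show |((if (p.1 : ℕ) = k then c' q.1 * B q.1 p.2 q.2 else
      if (q.1 : ℕ) = p.1 + 1 ∧ q.2 = p.2 then Cc else 0 : ℤ) : ℝ)| ≤ K ^ (k + 1)
    split_ifs
    · push_cast
      rw [abs_mul, pow_succ]
      exact mul_le_mul (hc'K _) (hB _ _ _) (abs_nonneg _) (by positivity)
    · exact hCK
    · simp only [Int.cast_zero, abs_zero]
      positivity
  · have hy1 : 1 ≤ 1 + |y| := by linarith [abs_nonneg y]
    by_cases hp : (p.1 : ℕ) = k
    · have e1 : ∑ q : Fin (k + 1) × ι, ((if (p.1 : ℕ) = k then c' q.1 * B q.1 p.2 q.2 else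
          if (q.1 : ℕ) = p.1 + 1 ∧ q.2 = p.2 then Cc else 0 : ℤ) : ℝ) * (y ^ (q.1 : ℕ) * W q.2) =
          ∑ j : Fin (k + 1), (c' j : ℝ) * y ^ (j : ℕ) * ∑ g, (B j p.2 g : ℝ) * W g := by
        rw [Fintype.sum_prod_type]
        refine Finset.sum_congr rfl fun j _ => ?_
        rw [Finset.mul_sum]
        refine Finset.sum_congr rfl fun g _ => ?_
        rw [if_pos hp]
        push_cast
        ring
      show |(Cc : ℝ) * y * (y ^ (p.1 : ℕ) * W p.2) - _| ≤ _
      rw [e1]
      have e2 : (Cc : ℝ) * y * (y ^ (p.1 : ℕ) * W p.2) =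
          ∑ j : Fin (k + 1), (c' j : ℝ) * y ^ (j : ℕ) * (c j * b j * W p.2) := by
        rw [hp]
        calc (Cc : ℝ) * y * (y ^ k * W p.2) = Cc * (y ^ (k + 1)) * W p.2 := by ring
          _ = ∑ j : Fin (k + 1), (c' j : ℝ) * y ^ (j : ℕ) * (c j * b j * W p.2) := by
              rw [hy, Finset.mul_sum, Finset.sum_mul]
              refine Finset.sum_congr rfl fun j _ => ?_
              rw [hcc' j]
              ring
      rw [e2, ← Finset.sum_sub_distrib]
      refine (Finset.abs_sum_le_sum_abs _ _).trans ?_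
      calc ∑ j : Fin (k + 1), |(c' j : ℝ) * y ^ (j : ℕ) * (c j * b j * W p.2) -
            (c' j : ℝ) * y ^ (j : ℕ) * ∑ g, (B j p.2 g : ℝ) * W g|
          ≤ ∑ _j : Fin (k + 1), K ^ (k + 1) * (1 + |y|) ^ (k + 1) * ε := by
            refine Finset.sum_le_sum fun j _ => ?_
            rw [← mul_sub, abs_mul, abs_mul, abs_pow]
            refine mul_le_mul (mul_le_mul ?_ ?_ (by positivity) (by positivity)) (h1 j p.2)
              (abs_nonneg _) (by positivity)
            · exact (hc'K j).trans (pow_le_pow_right₀ hK (by omega))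
            · calc |y| ^ (j : ℕ) ≤ (1 + |y|) ^ (j : ℕ) :=
                    pow_le_pow_left₀ (abs_nonneg _) (by linarith) _
                _ ≤ (1 + |y|) ^ (k + 1) := pow_le_pow_right₀ hy1 (by have := j.2; omega)
        _ = (k + 1) * (K ^ (k + 1) * (1 + |y|) ^ (k + 1)) * ε := by
            rw [Finset.sum_const, Finset.card_univ, Fintype.card_fin, nsmul_eq_mul]
            push_cast
            ring
    · have hp2 : (p.1 : ℕ) + 1 < k + 1 := by
        have := p.1.2
        omega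
      have e1 : ∑ q : Fin (k + 1) × ι, ((if (p.1 : ℕ) = k then c' q.1 * B q.1 p.2 q.2 else
          if (q.1 : ℕ) = p.1 + 1 ∧ q.2 = p.2 then Cc else 0 : ℤ) : ℝ) * (y ^ (q.1 : ℕ) * W q.2) =
          Cc * (y ^ ((p.1 : ℕ) + 1) * W p.2) := by
        rw [Finset.sum_eq_single ((⟨(p.1 : ℕ) + 1, hp2⟩ : Fin (k + 1)), p.2)]
        · rw [if_neg hp, if_pos ⟨rfl, rfl⟩]
        · intro q _ hq
          rw [if_neg hp, if_neg]
          · simp
          · rintro ⟨h2, h3⟩
            exact hq (Prod.ext (Fin.ext h2) h3)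
        · intro h
          exact absurd (mem_univ _) h
      show |(Cc : ℝ) * y * (y ^ (p.1 : ℕ) * W p.2) - _| ≤ _
      rw [e1]
      have e3 : (Cc : ℝ) * y * (y ^ (p.1 : ℕ) * W p.2) - Cc * (y ^ ((p.1 : ℕ) + 1) * W p.2) = 0 := by
        rw [pow_succ]; ring
      rw [e3, abs_zero]
      positivity

/-- the field is algebraically closed in the real numbers -/
theorem Aa.closed (hH : Tendsto H atTop atTop) (y : ℝ) (h : IsAlgebraic (aaField H hH) y) :
    Aa H y := by
  -- the minimal polynomial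
  have hint : IsIntegral (aaField H hH) y := isAlgebraic_iff_isIntegral.1 h
  set p := minpoly (aaField H hH) y with hp
  have hmon : p.Monic := minpoly.monic hint
  have hpos : 0 < p.natDegree := minpoly.natDegree_pos hint
  obtain ⟨k, hk⟩ : ∃ k, p.natDegree = k + 1 := ⟨p.natDegree - 1, by omega⟩
  have hroot : aeval y p = 0 := minpoly.aeval _ _
  have hy : y ^ (k + 1) = ∑ j : Fin (k + 1), (-((p.coeff j : aaField H hH) : ℝ)) * y ^ (j : ℕ) := by
    rw [aeval_eq_sum_range, hk, Finset.sum_range_succ] at hroot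
    have h1 : p.coeff (k + 1) = 1 := by rw [← hk]; exact hmon
    rw [h1, one_smul] at hroot
    have h2 : ∑ j ∈ range (k + 1), p.coeff j • y ^ j =
        ∑ j : Fin (k + 1), ((p.coeff j : aaField H hH) : ℝ) * y ^ (j : ℕ) := by
      rw [← Fin.sum_univ_eq_sum_range (fun j => p.coeff j • y ^ j) (k + 1)]
      rfl
    rw [h2] at hroot
    simp only [neg_mul]
    rw [Finset.sum_neg_distrib]
    linarith
  obtain ⟨ι, _, _, W, f₀, hW, A, hrep⟩ := Aa.common hH
    (fun j : Fin (k + 1) => -((p.coeff j : aaField H hH) : ℝ))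
    (fun j => (-(p.coeff j : aaField H hH)).2)
  refine Aa.of_rep hH (fun q : Fin (k + 1) × ι => y ^ (q.1 : ℕ) * W q.2) (0, f₀)
    (by simp [hW]) y (A * (k + 1)) fun E => ?_
  filter_upwards [hrep (E + 1 + A * (k + 1)), hH.eventually_ge_atTop 1,
    hH.eventually_ge_atTop ((k + 1) * (1 + |y|) ^ (k + 1))] with n hn h1 h2
  have h0 : 0 < H n := by linarith
  have h3 := Rep.root W (H n ^ A) (1 / H n ^ (E + 1 + A * (k + 1))) (one_le_pow₀ h1)
    (by positivity) k _ hn y hy
  refine h3.mono (le_of_eq (by rw [← pow_mul])) ?_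
  calc ((k : ℝ) + 1) * ((H n ^ A) ^ (k + 1) * (1 + |y|) ^ (k + 1)) *
        (1 / H n ^ (E + 1 + A * (k + 1)))
      = ((k + 1) * (1 + |y|) ^ (k + 1)) * (H n ^ (A * (k + 1)) *
        (1 / H n ^ (E + 1 + A * (k + 1)))) := by rw [← pow_mul]; ring
    _ ≤ H n * (H n ^ (A * (k + 1)) * (1 / H n ^ (E + 1 + A * (k + 1)))) :=
        mul_le_mul_of_nonneg_right h2 (by positivity)
    _ = 1 / H n ^ E := by
        rw [pow_add (H n) (E + 1), pow_succ]
        field_simp

/-- a number with a transcendence measure is not in the field -/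
theorem not_aa (hH : Tendsto H atTop atTop) (x : ℝ) (hx : MeasT (x : ℂ)) : ¬ Aa H x := by
  rintro ⟨D, A, h⟩
  obtain ⟨κ, c, hκ, hc, hm⟩ := hx D
  obtain ⟨E, hE⟩ := exists_nat_gt ((A : ℝ) * κ + 1)
  obtain ⟨n, hn, h1, h2⟩ := ((h E).and ((hH.eventually_ge_atTop 1).and
    (hH.eventually_gt_atTop (1 / c)))).exists
  obtain ⟨P, hP0, hPD, hPc, hPv⟩ := hn
  have h0 : 0 < H n := by linarith
  have h3 := hm P hP0 hPD (H n ^ A) (one_le_pow₀ h1) hPc
  have hnorm : ‖aeval ((x : ℝ) : ℂ) P‖ = |aeval x P| := by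
    have h1 : aeval ((x : ℝ) : ℂ) P = ((aeval x P : ℝ) : ℂ) := by
      have := Polynomial.aeval_algebraMap_apply ℂ x P
      simpa using this
    rw [h1, Complex.norm_real, Real.norm_eq_abs]
  rw [hnorm] at h3
  have h4 : (H n ^ A) ^ κ = H n ^ ((A : ℝ) * κ) := by
    rw [← Real.rpow_natCast, ← Real.rpow_mul h0.le]
  have h5 : c ≤ H n ^ ((A : ℝ) * κ) * (1 / H n ^ E) := by
    rw [h4] at h3
    exact h3.trans (mul_le_mul_of_nonneg_left hPv (by positivity))
  have h6 : H n ^ ((A : ℝ) * κ) * (1 / H n ^ E) ≤ 1 / H n := by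
    have e1 : (1 : ℝ) / H n ^ E = H n ^ (-(E : ℝ)) := by
      rw [Real.rpow_neg h0.le, Real.rpow_natCast, one_div]
    have e2 : (1 : ℝ) / H n = H n ^ (-(1 : ℝ)) := by
      rw [Real.rpow_neg h0.le, Real.rpow_one, one_div]
    rw [e1, e2, ← Real.rpow_add h0]
    exact Real.rpow_le_rpow_of_exponent_le h1 (by linarith)
  have h7 : 1 / H n < c := by
    rw [div_lt_iff₀ h0]
    rw [div_lt_iff₀ hc] at h2
    linarith
  linarith

/-- **Joint transcendence measure of several numbers.** If a number with a transcendence measure is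
algebraic over the field generated by the numbers `v_i`, `i ∈ T`, then these are not simultaneously
close to algebraic numbers. -/
theorem MJ_of_algebraic {ι : Type*} (T : Finset ι) (v : ι → ℝ) (x : ℝ) (hx : MeasT (x : ℂ))
    (h : IsAlgebraic (Subfield.closure (v '' (T : Set ι))) x) : MJ T v := by
  intro D
  by_contra hcon
  push Not at hcon
  have hex : ∀ n : ℕ, ∃ P : ι → ℤ[X], (∀ i ∈ T, P i ≠ 0) ∧ (∀ i ∈ T, (P i).natDegree ≤ D) ∧
      ∃ G : ℝ, 1 ≤ G ∧ (∀ i ∈ T, ∀ k, |((P i).coeff k : ℝ)| ≤ G) ∧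
        ∀ i ∈ T, |aeval (v i) (P i)| < 1 / ((n : ℝ) + 1) ^ (n + 1) * G ^ (-((n : ℝ) + 1)) := by
    intro n
    obtain ⟨P, h1, h2, G, h3, h4, h5⟩ := hcon ((n : ℝ) + 1) (1 / ((n : ℝ) + 1) ^ (n + 1))
      (by positivity) (by positivity)
    exact ⟨P, h1, h2, G, h3, h4, h5⟩
  choose P hP0 hPD G hG1 hPG hPv using hex
  set H : ℕ → ℝ := fun n => max (G n) ((n : ℝ) + 1) with hHdef
  have hH : Tendsto H atTop atTop := by
    refine tendsto_atTop_mono (f := fun n : ℕ => ((n : ℝ) + 1)) (fun n => le_max_right _ _) ?_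
    exact tendsto_atTop_add_const_right _ _ tendsto_natCast_atTop_atTop
  have hAa : ∀ i ∈ T, Aa H (v i) := by
    intro i hi
    refine ⟨D, 1, fun E => ?_⟩
    filter_upwards [eventually_ge_atTop E] with n hn
    refine ⟨P n i, hP0 n i hi, hPD n i hi, fun k => ?_, ?_⟩
    · rw [pow_one]
      exact (hPG n i hi k).trans (le_max_left _ _)
    · refine (hPv n i hi).le.trans ?_
      have hG0 : 0 < G n := by linarith [hG1 n]
      have hn1 : (1 : ℝ) ≤ (n : ℝ) + 1 := by
        have : (0 : ℝ) ≤ n := Nat.cast_nonneg n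
        linarith
      have e1 : G n ^ (-((n : ℝ) + 1)) = 1 / G n ^ (n + 1) := by
        rw [Real.rpow_neg hG0.le, one_div]
        congr 1
        rw [← Real.rpow_natCast]
        push_cast
        rfl
      rw [e1]
      have hH1 : 1 ≤ H n := (hG1 n).trans (le_max_left _ _)
      have e2 : H n ^ E ≤ ((n : ℝ) + 1) ^ (n + 1) * G n ^ (n + 1) := by
        have e3 : H n ≤ ((n : ℝ) + 1) * G n := by
          refine max_le ?_ ?_
          · nlinarith [hG1 n]
          · nlinarith [hG1 n]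
        calc H n ^ E ≤ H n ^ (n + 1) := pow_le_pow_right₀ hH1 (by omega)
          _ ≤ (((n : ℝ) + 1) * G n) ^ (n + 1) := pow_le_pow_left₀ (by linarith) e3 _
          _ = ((n : ℝ) + 1) ^ (n + 1) * G n ^ (n + 1) := mul_pow _ _ _
      have hE0 : 0 < H n ^ E := by positivity
      rw [one_div_mul_one_div]
      exact one_div_le_one_div_of_le hE0 e2
  have hle : Subfield.closure (v '' (T : Set ι)) ≤ aaField H hH := by
    rw [Subfield.closure_le]
    rintro _ ⟨i, hi, rfl⟩
    exact hAa i hi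
  refine not_aa hH x hx (Aa.closed hH x ?_)
  obtain ⟨p, hp0, hp⟩ := h
  refine ⟨p.map (Subfield.inclusion hle), ?_, ?_⟩
  · rwa [Ne, Polynomial.map_eq_zero]
  · rw [aeval_def, eval₂_map]
    exact hp

end Pool.Agent.U831.MU
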