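import Mathlib
import Pool.Agent.U831.MU.Field
import Pool.Agent.U831.MU.Compat

/-!
# The field generated by the exceptional numbers at a range of scales
-/

set_option autoImplicit false

namespace Pool.Agent.U831.MU

open Finset Polynomial Filter Pool.Agent.TH456.TM Pool.Agent.U831.JE

/-- **The field of the exceptional numbers.** For every finite family of real numbers and every
long range of scales, all numbers with a transcendence measure are transcendental over the field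
generated by the members of the family which are exceptional at some scale of the range. -/
theorem field_engine {ι : Type*} [DecidableEq ι] (F : Finset ι) (v : ι → ℝ) (D : ℕ) (M : ℝ)
    (hM : 2 ≤ M) :
    ∃ c : ℝ, 0 < c ∧ ∃ X₀ : ℝ, ∀ X : ℝ, X₀ ≤ X → ∃ S : Finset ι, S ⊆ F ∧
      (∀ x : ℝ, MeasT (x : ℂ) → Transcendental (Subfield.closure (v '' (S : Set ι))) x) ∧
      (∀ i ∈ F, (∃ P : ℤ[X], P ≠ 0 ∧ P.natDegree ≤ D ∧ aeval (v i) P = 0) → i ∈ S) ∧
      ∀ i ∈ F, i ∉ S → ∀ N : ℕ, X ≤ N → (N : ℝ) ≤ X ^ M → Good D c N (v i) := by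
  classical
  have hM1 : 1 ≤ M := by linarith
  have key : ∀ 𝒮 : Finset (Finset ι), (∀ T ∈ 𝒮, MJ T v) →
      ∃ c : ℝ, 0 < c ∧ ∃ X₀ : ℝ, 1 ≤ X₀ ∧ ∀ X : ℝ, X₀ ≤ X → ∀ T ∈ 𝒮, ∃ i ∈ T, ∀ N : ℕ, X ≤ N →
        (N : ℝ) ≤ X ^ M → Good D c N (v i) := by
    intro 𝒮
    induction 𝒮 using Finset.induction_on with
    | empty => intro _; exact ⟨1, one_pos, 1, le_rfl, fun X _ T hT => absurd hT (notMem_empty T)⟩
    | insert S 𝒮 hS ih =>
      intro h𝒮
      obtain ⟨c, hc, X₀, hX₀, h1⟩ := ih fun T hT => h𝒮 T (mem_insert_of_mem hT)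
      obtain ⟨c', hc', X₁, h2⟩ := (h𝒮 S (mem_insert_self _ _)).good D M hM1
      refine ⟨min c c', lt_min hc hc', max X₀ X₁, hX₀.trans (le_max_left _ _),
        fun X hX T hT => ?_⟩
      have hX1 : 1 ≤ X := hX₀.trans ((le_max_left _ _).trans hX)
      rcases mem_insert.1 hT with rfl | hT
      · obtain ⟨i, hi, h3⟩ := h2 X ((le_max_right _ _).trans hX)
        refine ⟨i, hi, fun N hN1 hN2 => (h3 N hN1 hN2).mono ?_ (min_le_right _ _)⟩
        exact_mod_cast hX1.trans hN1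
      · obtain ⟨i, hi, h3⟩ := h1 X ((le_max_left _ _).trans hX) T hT
        refine ⟨i, hi, fun N hN1 hN2 => (h3 N hN1 hN2).mono ?_ (min_le_left _ _)⟩
        exact_mod_cast hX1.trans hN1
  obtain ⟨c, hc, X₀, hX₀, h1⟩ := key (F.powerset.filter fun T => MJ T v)
    fun T hT => (mem_filter.1 hT).2
  obtain ⟨X₁, h2⟩ := compat F v D c hc
  refine ⟨c, hc, max X₀ (max X₁ 2), fun X hX => ?_⟩
  have hXa : X₀ ≤ X := (le_max_left _ _).trans hX
  have hXb : X₁ ≤ X := (le_max_left _ _).trans ((le_max_right _ _).trans hX)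
  have hXc : 2 ≤ X := (le_max_right _ _).trans ((le_max_right _ _).trans hX)
  set T : Finset ι := F.filter fun i => ∃ N : ℕ, X ≤ N ∧ (N : ℝ) ≤ X ^ M ∧ ¬ Good D c N (v i)
    with hT
  have hTF : T ⊆ F := filter_subset _ _
  refine ⟨T, hTF, fun x hx halg => ?_, fun i hi hP => ?_, fun i hi hiT N hN1 hN2 => ?_⟩
  · have hMJ := MJ_of_algebraic T v x hx halg
    obtain ⟨i, hi, h3⟩ := h1 X hXa T (mem_filter.2 ⟨mem_powerset.2 hTF, hMJ⟩)
    obtain ⟨N, hN1, hN2, hN3⟩ := (mem_filter.1 hi).2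
    exact hN3 (h3 N hN1 hN2)
  · have h3 := ceil_range X M hXc hM
    exact mem_filter.2 ⟨hi, ⌈X⌉₊, h3.1, h3.2, h2 X hXb i hi hP⟩
  · by_contra hbad
    exact hiT (mem_filter.2 ⟨hi, N, hN1, hN2, hbad⟩)

end Pool.Agent.U831.MU
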